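import Pool.Agent.D76130.Scheme

/-!
# The diagonal typing of Baire space

There is a typing `θ` of the elements of Baire space by a countable set of types such that every
uncountable set of codes has a limit code whose columns have prescribed types, except for the
columns that are shared by many members of the set.
-/

namespace Pool.Agent.D76130

open Set Cardinal

theorem exists_notMem_of_small {ι : Type} (hι : #ι < 𝔠) (A : ι → Set (ℕ → Bool))
    (hA : ∀ a, (A a).Countable) : ∃ β, ∀ a, β ∉ A a := by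
  by_contra hcon
  push Not at hcon
  have h1 : #(ℕ → Bool) = 𝔠 := by simp
  have h2 : #(⋃ a, A a) < 𝔠 := by
    calc #(⋃ a, A a) ≤ #ι * ⨆ a, #(A a) := mk_iUnion_le _
      _ ≤ #ι * ℵ₀ := by
          gcongr
          exact ciSup_le' fun a => le_aleph0_iff_set_countable.2 (hA a)
      _ < 𝔠 := mul_lt_of_lt aleph0_le_continuum hι aleph0_lt_continuum
  have h3 : (⋃ a, A a) = (Set.univ : Set (ℕ → Bool)) :=
    eq_univ_of_forall fun β => mem_iUnion.2 (hcon β)
  rw [h3, mk_univ, h1] at h2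
  exact lt_irrefl _ h2

theorem exists_typing {Θ : Type} [Countable Θ] [Inhabited Θ] :
    ∃ θ : (ℕ → ℕ) → Θ, ∀ T : Set Cd, ¬ T.Countable → ∀ τ : ℕ → Θ,
      ∃ p : Cd, (∀ m, ∃ c ∈ T, agr m c p) ∧
        ∀ j, (∃ c ∈ T, ∃ c' ∈ T, c ≠ c' ∧ c j = p j ∧ c' j = p j) ∨
          ∃ i ≤ j, p i = p j ∧ (∀ i' < i, p i' ≠ p j) ∧ θ (p j) = τ i := by
  classical
  let R : Type := (List Bool → Cd) × (ℕ → Θ)
  have hR : #R ≤ 𝔠 := by
    have h1 : #(List Bool → Cd) ≤ 𝔠 := by
      simp only [Cd, mk_pi, prod_const, lift_id, mk_nat, mk_list_eq_aleph0]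
      rw [aleph0_power_aleph0, continuum_power_aleph0, continuum_power_aleph0]
    have h2 : #(ℕ → Θ) ≤ 𝔠 := by
      rw [mk_pi, prod_const]
      simp only [lift_id, mk_nat]
      calc #Θ ^ ℵ₀ ≤ ℵ₀ ^ ℵ₀ := power_le_power_right (mk_le_aleph0)
        _ = 𝔠 := aleph0_power_aleph0
    rw [mk_prod, lift_id, lift_id]
    calc #(List Bool → Cd) * #(ℕ → Θ) ≤ 𝔠 * 𝔠 := mul_le_mul' h1 h2
      _ = 𝔠 := continuum_mul_self
  obtain ⟨r, wo, hr⟩ := exists_ord_eq R
  have hlt : ∀ x : R, #{y // r y x} < 𝔠 := fun x => by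
    have := card_typein_lt (r := r) x hr
    exact lt_of_lt_of_le this hR
  have hwf : WellFounded r := wo.toIsWellFounded.wf
  -- the bad branches at a stage
  let Bad : (x : R) → ((y : R) → r y x → (ℕ → Bool)) → Set (ℕ → Bool) := fun x F =>
    ⋃ a : {y // r y x} × ℕ × ℕ,
      {β | ev x.1 β a.2.1 = ev a.1.1.1 (F a.1.1 a.1.2) a.2.2 ∧
        {β' | ev x.1 β' a.2.1 = ev x.1 β a.2.1}.Countable}
  have hBad : ∀ x F, ∃ β, β ∉ Bad x F := by
    intro x F
    have hι : #({y // r y x} × ℕ × ℕ) < 𝔠 := by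
      have h3 : #({y // r y x} × ℕ × ℕ) = #{y // r y x} * ℵ₀ := by
        simp [mk_prod]
      rw [h3]
      exact mul_lt_of_lt aleph0_le_continuum (hlt x) aleph0_lt_continuum
    obtain ⟨β, hβ⟩ := exists_notMem_of_small hι (fun a : {y // r y x} × ℕ × ℕ =>
      {β | ev x.1 β a.2.1 = ev a.1.1.1 (F a.1.1 a.1.2) a.2.2 ∧
        {β' | ev x.1 β' a.2.1 = ev x.1 β a.2.1}.Countable}) (by
        intro a
        by_cases hne : ∃ β, β ∈ {β | ev x.1 β a.2.1 = ev a.1.1.1 (F a.1.1 a.1.2) a.2.2 ∧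
          {β' | ev x.1 β' a.2.1 = ev x.1 β a.2.1}.Countable}
        · obtain ⟨β, hβ1, hβ2⟩ := hne
          refine hβ2.mono ?_
          rintro β' ⟨h1, h2⟩
          exact h1.trans hβ1.symm
        · have : {β | ev x.1 β a.2.1 = ev a.1.1.1 (F a.1.1 a.1.2) a.2.2 ∧
            {β' | ev x.1 β' a.2.1 = ev x.1 β a.2.1}.Countable} = ∅ := by
            ext β
            constructor
            · intro h
              exact absurd ⟨β, h⟩ hne
            · intro h
              exact absurd h (by simp)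
          rw [this]
          exact countable_empty)
    refine ⟨β, ?_⟩
    intro hmem
    obtain ⟨a, ha⟩ := mem_iUnion.1 hmem
    exact hβ a ha
  -- choose branches
  let β : R → (ℕ → Bool) := hwf.fix fun x F => Classical.choose (hBad x F)
  have hβ : ∀ x, β x ∉ Bad x (fun y _ => β y) := by
    intro x
    have : β x = Classical.choose (hBad x (fun y _ => β y)) := hwf.fix_eq _ x
    rw [this]
    exact Classical.choose_spec (hBad x (fun y _ => β y))
  let f : R → Cd := fun x => ev x.1 (β x)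
  have hf : ∀ x j, (∃ y, r y x ∧ ∃ j', f y j' = f x j) →
      ¬ {β' | ev x.1 β' j = f x j}.Countable := by
    rintro x j ⟨y, hy, j', hj'⟩ hc
    apply hβ x
    refine mem_iUnion.2 ⟨⟨⟨y, hy⟩, j, j'⟩, ?_⟩
    exact ⟨hj'.symm, hc⟩
  -- the typing
  let θ : (ℕ → ℕ) → Θ := fun a =>
    if h : ∃ x, ∃ j, f x j = a then
      (hwf.min {x | ∃ j, f x j = a} h).2 (Nat.find (hwf.min_mem {x | ∃ j, f x j = a} h))
    else default
  refine ⟨θ, ?_⟩
  intro T hT τ
  obtain ⟨S, hS1, hS2⟩ := exists_scheme T hT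
  let x : R := (S, τ)
  refine ⟨f x, hS1 (β x), ?_⟩
  intro j
  by_cases hcase : ∃ y, r y x ∧ ∃ j', f y j' = f x j
  · left
    have hunc := hf x j hcase
    -- two branches with the same prefix
    have hex : ∃ γ γ', γ ≠ γ' ∧ rp γ (j + 1) = rp γ' (j + 1) ∧ ev S γ j = f x j ∧
        ev S γ' j = f x j := by
      by_contra hcon
      push Not at hcon
      apply hunc
      have hinj : InjOn (fun γ => rp γ (j + 1)) {β' | ev x.1 β' j = f x j} := by
        intro γ hγ γ' hγ' heq
        by_contra hne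
        exact hcon γ γ' hne heq hγ hγ'
      exact Set.countable_of_injective_of_countable_image hinj (Set.to_countable _)
    obtain ⟨γ, γ', hne, hpre, h1, h2⟩ := hex
    have := hS2 j γ γ' hne hpre (h1.trans h2.symm)
    rw [h1] at this
    exact this
  · right
    have hex : ∃ y, ∃ j', f y j' = f x j := ⟨x, j, rfl⟩
    have hmin : hwf.min {y | ∃ j', f y j' = f x j} hex = x := by
      have hm1 := hwf.min_mem {y | ∃ j', f y j' = f x j} hex
      have hm2 : ¬ r x (hwf.min {y | ∃ j', f y j' = f x j} hex) :=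
        hwf.not_lt_min {y | ∃ j', f y j' = f x j} ⟨j, rfl⟩
      have hm3 : ¬ r (hwf.min {y | ∃ j', f y j' = f x j} hex) x := by
        intro h
        exact hcase ⟨_, h, hm1⟩
      rcases trichotomous_of r (hwf.min {y | ∃ j', f y j' = f x j} hex) x with h | h | h
      · exact absurd h hm3
      · exact h
      · exact absurd h hm2
    have hxj : ∃ i, f x i = f x j := ⟨j, rfl⟩
    refine ⟨Nat.find hxj, Nat.find_le rfl, Nat.find_spec hxj, fun i' hi' => Nat.find_min hxj hi', ?_⟩
    have hθ : θ (f x j) = (hwf.min {y | ∃ j', f y j' = f x j} hex).2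
        (Nat.find (hwf.min_mem {y | ∃ j', f y j' = f x j} hex)) := by
      simp only [θ]
      rw [dif_pos hex]
    rw [hθ]
    have hgen : ∀ (y : R) (hy : ∃ i, f y i = f x j), y = x →
        y.2 (Nat.find hy) = τ (Nat.find hxj) := by
      intro y hy hyx
      subst hyx
      rfl
    exact hgen _ _ hmin

end Pool.Agent.D76130
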