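import Pool.Agent.D76130.NF

/-!
# Limits of functions with disjoint supports

An uncountable family of continuous functions with pairwise disjoint supports has a limit point
with empty support, when restricted to the countable part of the space.
-/

namespace Pool.Agent.D76130

open Set

variable {θ : Br → Ty}

/-- The normal form data of a continuous function. -/
structure IsData (M : ℕ) (ts : List Ty) (D : Cp (X θ)) (v : ℕ → Br) (N : List Bool → ℕ)
    (g : List Bool → ℕ → Br) : Prop where
  zero : rq D Qt.zero = false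
  sep : ∀ i < ts.length, ∀ j < ts.length, i ≠ j → pf (v i) M ≠ pf (v j) M
  off : ∀ q, M ≤ (base q).length → (∀ i < ts.length, ¬ Pre (base q) (v i)) → rq D q = false
  good : ∀ i < ts.length, Good M (rq D) (v i) (ts.getD i default)
  typ : ∀ i < ts.length, θ (v i) = ts.getD i default ∨ ∃ x ∈ supp D, x.1 = v i
  gfree : ∀ u k, θ (g u k) ≠ Ty.B u.length
  loc : ∀ u, ∀ w : List Bool, N u ≤ w.length → (∀ k < N u, ¬ Pre (u ++ w) (g u k)) →
    rq D (Qt.s u w) = rq D (Qt.cen u)

/-- The code of a function with its data. -/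
def code (eQ : ℕ → Qt) (eU : ℕ → List Bool) (eG : ℕ → List Bool × ℕ) (r : ℕ) (d : Qt → Bool)
    (v : ℕ → Br) (N : List Bool → ℕ) (g : List Bool → ℕ → Br) : Cd
  | 0 => fun k => match k with
    | 0 => 2
    | k + 1 => (d (eQ k)).toNat
  | 1 => fun k => match k with
    | 0 => 2
    | k + 1 => N (eU k)
  | j + 2 => if j < r then enc (v j) else enc (g (eG (j - r)).1 (eG (j - r)).2)

theorem limit_exists {θ' : (ℕ → ℕ) → Ty} (hθ' : IsTyping θ') (hθ : ∀ v, θ v = θ' (enc v))
    (M : ℕ) (ts : List Ty) (𝒯 : Set (Cp (X θ))) (h𝒯 : ¬ 𝒯.Countable)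
    (hdisj : ∀ D ∈ 𝒯, ∀ D' ∈ 𝒯, D ≠ D' → Disjoint (supp D) (supp D'))
    (v : Cp (X θ) → ℕ → Br) (N : Cp (X θ) → List Bool → ℕ)
    (g : Cp (X θ) → List Bool → ℕ → Br)
    (hdata : ∀ D ∈ 𝒯, IsData M ts D (v D) (N D) (g D)) :
    ∃ E : Cp (X θ), rq E Qt.zero = false ∧ supp E = ∅ ∧
      ∀ F : Finset Qt, ∃ D ∈ 𝒯, ∀ q ∈ F, rq D q = rq E q := by
  classical
  obtain ⟨eQ, heQ⟩ : ∃ eQ : ℕ → Qt, Function.Surjective eQ := by
    haveI : Nonempty Qt := ⟨Qt.zero⟩
    exact exists_surjective_nat Qt
  obtain ⟨eU, heU⟩ : ∃ eU : ℕ → List Bool, Function.Surjective eU :=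
    exists_surjective_nat (List Bool)
  obtain ⟨eG, heG⟩ : ∃ eG : ℕ → List Bool × ℕ, Function.Surjective eG :=
    exists_surjective_nat (List Bool × ℕ)
  choose iQ hiQ using heQ
  choose iU hiU using heU
  choose iG hiG using heG
  set r := ts.length with hr
  set cd : Cp (X θ) → Cd := fun D => code eQ eU eG r (rq D) (v D) (N D) (g D) with hcd
  have hinj : Function.Injective cd := by
    intro D D' h
    apply Subtype.ext
    apply eq_of_eq_q D.2 D'.2
    intro q
    have h1 := congrFun (congrFun h 0) (iQ q + 1)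
    have h2 : (rq D (eQ (iQ q))).toNat = (rq D' (eQ (iQ q))).toNat := h1
    rw [hiQ] at h2
    have h3 : enc (fun _ => rq D q) 0 = enc (fun _ => rq D' q) 0 := h2
    exact enc_apply_inj h3
  have hT : ¬ (cd '' 𝒯).Countable := fun h =>
    h𝒯 (Set.countable_of_injective_of_countable_image hinj.injOn h)
  let τ : ℕ → Ty := fun j => match j with
    | 0 => Ty.A1
    | 1 => Ty.A1
    | j + 2 => if j < r then ts.getD j default else Ty.A1
  obtain ⟨p, hp1, hp2⟩ := hθ' _ hT τ
  have happ : ∀ m, ∃ D ∈ 𝒯, agr m (cd D) p := by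
    intro m
    obtain ⟨_, ⟨D, hD, rfl⟩, h⟩ := hp1 m
    exact ⟨D, hD, h⟩
  -- decoding
  set dp : Qt → Bool := fun q => p 0 (iQ q + 1) == 1 with hdp
  set Np : List Bool → ℕ := fun u => p 1 (iU u + 1) with hNp
  set vp : ℕ → Br := fun j => dec (p (j + 2)) with hvp
  set gi : List Bool → ℕ → ℕ := fun u k => r + iG (u, k) with hgi
  set gp : List Bool → ℕ → Br := fun u k => dec (p (gi u k + 2)) with hgp
  have hcd_v : ∀ D, ∀ j < r, cd D (j + 2) = enc (v D j) := by
    intro D j hj
    show (if j < r then enc (v D j) else _) = _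
    rw [if_pos hj]
  have hcd_g : ∀ D u k, cd D (gi u k + 2) = enc (g D u k) := by
    intro D u k
    show (if r + iG (u, k) < r then enc (v D (r + iG (u, k))) else
      enc (g D (eG (r + iG (u, k) - r)).1 (eG (r + iG (u, k) - r)).2)) = _
    rw [if_neg (by omega), Nat.add_sub_cancel_left, hiG]
  have hcd_enc : ∀ D j, ∃ w : Br, cd D (j + 2) = enc w := by
    intro D j
    by_cases hj : j < r
    · exact ⟨_, hcd_v D j hj⟩
    · exact ⟨g D (eG (j - r)).1 (eG (j - r)).2, by
        show (if j < r then enc (v D j) else enc (g D (eG (j - r)).1 (eG (j - r)).2)) = _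
        rw [if_neg hj]⟩
  have hp_enc : ∀ j, enc (dec (p (j + 2))) = p (j + 2) := by
    intro j
    apply enc_dec
    intro n
    obtain ⟨D, _, hD⟩ := happ (j + 2 + n + 1)
    obtain ⟨w, hw⟩ := hcd_enc D j
    exact ⟨w, by rw [← hD (j + 2) (by omega) n (by omega), hw]⟩
  -- approximation
  have ap_d : ∀ D q m, agr m (cd D) p → iQ q + 1 < m → rq D q = dp q := by
    intro D q m h hm
    have h1 : (rq D (eQ (iQ q))).toNat = p 0 (iQ q + 1) := h 0 (by omega) (iQ q + 1) hm
    rw [hiQ] at h1
    show rq D q = (p 0 (iQ q + 1) == 1)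
    rw [← h1]
    cases rq D q <;> rfl
  have ap_N : ∀ D u m, agr m (cd D) p → iU u + 1 < m → N D u = Np u := by
    intro D u m h hm
    have h1 : N D (eU (iU u)) = p 1 (iU u + 1) := h 1 (by omega) (iU u + 1) hm
    rw [hiU] at h1
    exact h1
  have ap_v : ∀ D j n m, agr m (cd D) p → j < r → j + 2 < m → n ≤ m →
      pf (v D j) n = pf (vp j) n := by
    intro D j n m h hj hm hn
    rw [pf_eq_iff]
    intro i hi
    have h1 := h (j + 2) hm i (by omega)
    rw [hcd_v D j hj, ← hp_enc j] at h1
    exact enc_apply_inj h1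
  have ap_g : ∀ D u k n m, agr m (cd D) p → gi u k + 2 < m → n ≤ m →
      pf (g D u k) n = pf (gp u k) n := by
    intro D u k n m h hm hn
    rw [pf_eq_iff]
    intro i hi
    have h1 := h (gi u k + 2) hm i (by omega)
    rw [hcd_g D u k, ← hp_enc (gi u k)] at h1
    exact enc_apply_inj h1
  -- closed conditions
  have zerop : dp Qt.zero = false := by
    obtain ⟨D, hD, h⟩ := happ (iQ Qt.zero + 2)
    rw [← ap_d D _ _ h (by omega)]
    exact (hdata D hD).zero
  have sepp : ∀ i < r, ∀ j < r, i ≠ j → pf (vp i) M ≠ pf (vp j) M := by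
    intro i hi j hj hij
    obtain ⟨D, hD, h⟩ := happ (i + j + M + 3)
    rw [← ap_v D i M _ h hi (by omega) (by omega), ← ap_v D j M _ h hj (by omega) (by omega)]
    exact (hdata D hD).sep i hi j hj hij
  have offp : ∀ q, M ≤ (base q).length → (∀ i < r, ¬ Pre (base q) (vp i)) → dp q = false := by
    intro q hqM hno
    obtain ⟨D, hD, h⟩ := happ (iQ q + r + (base q).length + 3)
    rw [← ap_d D q _ h (by omega)]
    refine (hdata D hD).off q hqM ?_
    intro i hi hpre
    have := ap_v D i (base q).length _ h hi (by omega) (by omega)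
    exact hno i hi ((pre_congr this le_rfl).1 hpre)
  have goodp : ∀ i < r, Good M dp (vp i) (ts.getD i default) := by
    intro i hi
    have hG : ∀ D ∈ 𝒯, Good M (rq D) (v D i) (ts.getD i default) := fun D hD =>
      (hdata D hD).good i hi
    revert hG
    generalize ts.getD i default = t
    intro hG
    cases t with
    | I b =>
      obtain ⟨D, hD, _⟩ := happ 0
      exact hG D hD
    | A1 =>
      intro q hqM hqv
      obtain ⟨D, hD, h⟩ := happ (iQ q + i + size q + 3)
      rw [← ap_d D q _ h (by omega)]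
      refine hG D hD q hqM ?_
      rw [← hqv]
      exact hq_congr (ap_v D i (size q) _ h hi (by omega) (by omega)) le_rfl
    | A2 =>
      intro q hqM hqv
      obtain ⟨D, hD, h⟩ := happ (iQ q + i + size q + 3)
      rw [← ap_d D q _ h (by omega)]
      refine hG D hD q hqM ?_
      rw [← hqv]
      exact hq_congr (ap_v D i (size q) _ h hi (by omega) (by omega)) le_rfl
    | B n =>
      intro w hw hpre
      obtain ⟨D, hD, h⟩ := happ (iQ (Qt.s (pf (vp i) n) w) + iQ (Qt.cen (pf (vp i) n)) + i +
        (pf (vp i) n ++ w).length + n + 3)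
      have h1 := ap_v D i (pf (vp i) n ++ w).length _ h hi (by omega) (by omega)
      have h2 := ap_v D i n _ h hi (by omega) (by omega)
      rw [← ap_d D _ _ h (by omega), ← ap_d D (Qt.cen (pf (vp i) n)) _ h (by omega)]
      have h3 := hG D hD w hw
      rw [h2] at h3
      exact h3 ((pre_congr h1 le_rfl).2 hpre)
  have locp : ∀ u, ∀ w : List Bool, Np u ≤ w.length → (∀ k < Np u, ¬ Pre (u ++ w) (gp u k)) →
      dp (Qt.s u w) = dp (Qt.cen u) := by
    intro u w hw hno
    obtain ⟨D, hD, h⟩ := happ (iQ (Qt.s u w) + iQ (Qt.cen u) + iU u + (u ++ w).length +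
      (Finset.range (Np u)).sup (fun k => gi u k) + 3)
    rw [← ap_d D _ _ h (by omega), ← ap_d D (Qt.cen u) _ h (by omega)]
    have hN : N D u = Np u := ap_N D u _ h (by omega)
    apply (hdata D hD).loc
    · rw [hN]
      exact hw
    · rw [hN]
      intro k hk hpre
      have h1 : gi u k ≤ (Finset.range (Np u)).sup (fun k => gi u k) :=
        Finset.le_sup (f := fun k => gi u k) (Finset.mem_range.2 hk)
      have := ap_g D u k (u ++ w).length _ h (by omega) (by omega)
      exact hno k hk ((pre_congr this le_rfl).1 hpre)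
  -- data columns are different from branch columns
  have hp00 : p 0 0 = 2 := by
    obtain ⟨D, hD, h⟩ := happ 1
    exact (h 0 (by omega) 0 (by omega)).symm
  have hp10 : p 1 0 = 2 := by
    obtain ⟨D, hD, h⟩ := happ 2
    exact (h 1 (by omega) 0 (by omega)).symm
  have hpj0 : ∀ j, p (j + 2) 0 ≠ 2 := by
    intro j
    rw [← hp_enc j]
    show (dec (p (j + 2)) 0).toNat ≠ 2
    cases dec (p (j + 2)) 0 <;> simp
  have hcol : ∀ j i, p i = p (j + 2) → ∃ i', i = i' + 2 := by
    intro j i h
    rcases i with _ | _ | i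
    · exact absurd (by rw [← h, hp00]) (hpj0 j)
    · exact absurd (by rw [← h]; exact hp10) (hpj0 j)
    · exact ⟨i, rfl⟩
  have typp : ∀ i < r, θ (vp i) = ts.getD i default := by
    intro i hi
    rcases hp2 (i + 2) with ⟨_, ⟨D, hD, rfl⟩, _, ⟨D', hD', rfl⟩, hne, h1, h2⟩ |
      ⟨i0, hi0, h1, _, h3⟩
    · rw [hcd_v D i hi] at h1
      rw [hcd_v D' i hi] at h2
      have e1 : v D i = vp i := by
        show v D i = dec (p (i + 2))
        rw [← h1, dec_enc]
      have e2 : v D' i = vp i := by
        show v D' i = dec (p (i + 2))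
        rw [← h2, dec_enc]
      have hDD : D ≠ D' := fun h => hne (congrArg cd h)
      rcases (hdata D hD).typ i hi with h4 | ⟨x, hx, hx'⟩
      · rw [← e1]
        exact h4
      · rcases (hdata D' hD').typ i hi with h5 | ⟨y, hy, hy'⟩
        · rw [← e2]
          exact h5
        · exfalso
          have hxy : x = y := Subtype.ext (by rw [hx', hy', e1, e2])
          subst hxy
          exact Set.disjoint_left.1 (hdisj D hD D' hD' hDD) hx hy
    · obtain ⟨j, rfl⟩ := hcol i i0 h1
      have hji : j = i := by
        by_contra hji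
        refine sepp j (by omega) i hi hji ?_
        show pf (dec (p (j + 2))) M = pf (dec (p (i + 2))) M
        rw [h1]
      subst hji
      rw [hθ]
      show θ' (enc (dec (p (j + 2)))) = _
      rw [hp_enc, h3]
      show (if j < r then ts.getD j default else Ty.A1) = _
      rw [if_pos hi]
  have gtyp : ∀ u k, θ (gp u k) ≠ Ty.B u.length ∨
      ∃ i < r, gp u k = vp i ∧ ts.getD i default = Ty.B u.length := by
    intro u k
    rcases hp2 (gi u k + 2) with ⟨_, ⟨D, hD, rfl⟩, _, _, _, h1, _⟩ | ⟨i0, hi0, h1, _, h3⟩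
    · left
      rw [hcd_g D u k] at h1
      have e1 : g D u k = gp u k := by
        show g D u k = dec (p (gi u k + 2))
        rw [← h1, dec_enc]
      rw [← e1]
      exact (hdata D hD).gfree u k
    · obtain ⟨j, rfl⟩ := hcol (gi u k) i0 h1
      have h4 : θ (gp u k) = if j < r then ts.getD j default else Ty.A1 := by
        rw [hθ]
        show θ' (enc (dec (p (gi u k + 2)))) = _
        rw [hp_enc, h3]
      by_cases hj : j < r
      · rw [if_pos hj] at h4
        by_cases hB : ts.getD j default = Ty.B u.length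
        · right
          refine ⟨j, hj, ?_, hB⟩
          show dec (p (gi u k + 2)) = dec (p (j + 2))
          rw [h1]
        · left
          rw [h4]
          exact hB
      · left
        rw [h4, if_neg hj]
        intro h
        cases h
  -- the limit function
  let Ef : X θ → Bool := fun a => match a with
    | X.q q => dp q
    | X.P _ _ => false
  have hEf : Continuous Ef := by
    rw [continuous_iff_openAt]
    rintro ((_ | u | t | ⟨u, w⟩) | ⟨x, i⟩)
    · refine ⟨M, vp '' {i | i < r}, (Set.finite_lt_nat r).image _, ?_, ?_⟩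
      · intro q hqM hal
        show dp q = dp Qt.zero
        rw [zerop]
        by_cases hex : ∃ i < r, Pre (base q) (vp i)
        · obtain ⟨i, hi, hpre⟩ := hex
          have hgood := goodp i hi
          rcases hal (vp i) ⟨i, hi, rfl⟩ hpre with ⟨h1, h2⟩ | ⟨h1, h2⟩
          · rw [typp i hi] at h1
            rw [h1] at hgood
            exact hgood q hqM h2
          · rw [typp i hi] at h1
            rw [h1] at hgood
            exact hgood q hqM h2
        · push Not at hex
          exact offp q hqM hex
      · intro x i _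
        show false = dp Qt.zero
        rw [zerop]
    · refine ⟨max M (Np u), gp u '' {k | k < Np u} \ {g | θ g = Ty.B u.length},
        ((Set.finite_lt_nat (Np u)).image _).subset sdiff_subset, ?_, ?_⟩
      · rintro g ⟨_, hg⟩ h
        exact hg h
      · intro w hw hno
        show dp (Qt.s u w) = dp (Qt.cen u)
        by_cases hex : ∃ k < Np u, Pre (u ++ w) (gp u k)
        · obtain ⟨k, hk, hpre⟩ := hex
          have hB : θ (gp u k) = Ty.B u.length := by
            by_contra hB
            exact hno (gp u k) ⟨⟨k, hk, rfl⟩, hB⟩ hpre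
          rcases gtyp u k with h | ⟨i, hi, h1, h2⟩
          · exact absurd hB h
          · have hgood := goodp i hi
            rw [h2] at hgood
            rw [h1] at hpre
            have hu : pf (vp i) u.length = u := hpre.left
            have h3 := hgood w (by omega)
            rw [hu] at h3
            exact h3 hpre
        · push Not at hex
          exact locp u w (by omega) hex
    · trivial
    · trivial
    · have hfin : (vp '' {i | i < r}).Finite := (Set.finite_lt_nat r).image _
      obtain ⟨K, hK⟩ := exists_sep_finite (v := x.1) hfin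
      refine ⟨max M K, ?_⟩
      intro q hqM hqi
      show dp q = false
      apply offp q (by omega)
      intro j hj hpre
      have hne : x.1 ≠ vp j := by
        intro h
        obtain ⟨b, hb⟩ := x.2
        have hgood := goodp j hj
        rw [← typp j hj, ← h, hb] at hgood
        exact hgood
      exact hK (vp j) ⟨j, hj, rfl⟩ hne _ (by omega) (pre_of_hq hqi) hpre
  refine ⟨⟨Ef, hEf⟩, zerop, ?_, ?_⟩
  · ext x
    constructor
    · rintro ⟨i, hi⟩
      exact absurd (show false = true from hi) (by simp)
    · intro h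
      exact absurd h (by simp)
  · intro F
    obtain ⟨D, hD, h⟩ := happ (F.sup (fun q => iQ q) + 3)
    refine ⟨D, hD, fun q hq => ?_⟩
    have h1 : iQ q ≤ F.sup (fun q => iQ q) := Finset.le_sup (f := fun q => iQ q) hq
    exact ap_d D q _ h (by omega)

end Pool.Agent.D76130
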