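import Pool.Agent.D76130.Limit

/-!
# The function space is Lindelöf
-/

namespace Pool.Agent.D76130

open Set

variable {θ : Br → Ty}

/-- The key lemma. -/
theorem exists_countable_hit {θ' : (ℕ → ℕ) → Ty} (hθ' : IsTyping θ')
    (hθ : ∀ v, θ v = θ' (enc v)) (F : Set (Qt → Bool)) (hF : IsClosed F)
    (h0 : ∀ D : Cp (X θ), rq D Qt.zero = false → supp D = ∅ → rq D ∉ F) :
    ∃ E : Set (IBr θ), E.Countable ∧
      ∀ D : Cp (X θ), rq D Qt.zero = false → rq D ∈ F → (supp D ∩ E).Nonempty := by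
  classical
  let P : Set (Set (Cp (X θ))) := {𝒯 | (∀ D ∈ 𝒯, rq D Qt.zero = false ∧ rq D ∈ F) ∧
    ∀ D ∈ 𝒯, ∀ D' ∈ 𝒯, D ≠ D' → Disjoint (supp D) (supp D')}
  obtain ⟨𝒯, h𝒯⟩ := zorn_subset P (by
    intro c hcP hc
    refine ⟨⋃₀ c, ⟨?_, ?_⟩, fun s hs => subset_sUnion_of_mem hs⟩
    · rintro D ⟨s, hs, hDs⟩
      exact (hcP hs).1 D hDs
    · rintro D ⟨s, hs, hDs⟩ D' ⟨s', hs', hDs'⟩ hne
      rcases hc.total hs hs' with h | h
      · exact (hcP hs').2 D (h hDs) D' hDs' hne
      · exact (hcP hs).2 D hDs D' (h hDs') hne)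
  have hmem : 𝒯 ∈ P := h𝒯.prop
  by_cases hc : 𝒯.Countable
  · refine ⟨⋃ D ∈ 𝒯, supp D, hc.biUnion fun D hD => (supp_finite (hmem.1 D hD).1).countable, ?_⟩
    intro D hD0 hDF
    have hne : (supp D).Nonempty := by
      rw [nonempty_iff_ne_empty]
      intro h
      exact h0 D hD0 h hDF
    by_contra hcon
    have hdis : ∀ D' ∈ 𝒯, Disjoint (supp D) (supp D') := by
      intro D' hD'
      rw [Set.disjoint_left]
      intro x hx hx'
      exact hcon ⟨x, hx, mem_iUnion₂.2 ⟨D', hD', hx'⟩⟩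
    have hins : insert D 𝒯 ∈ P := by
      constructor
      · rintro D' (rfl | hD')
        · exact ⟨hD0, hDF⟩
        · exact hmem.1 D' hD'
      · rintro D1 (rfl | h1) D2 (rfl | h2) hne'
        · exact absurd rfl hne'
        · exact hdis D2 h2
        · exact (hdis D1 h1).symm
        · exact hmem.2 D1 h1 D2 h2 hne'
    have hDT : D ∈ 𝒯 := h𝒯.le_of_ge hins (subset_insert D 𝒯) (mem_insert D 𝒯)
    obtain ⟨x, hx⟩ := hne
    exact hcon ⟨x, hx, mem_iUnion₂.2 ⟨D, hDT, hx⟩⟩
  · exfalso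
    -- a free branch
    obtain ⟨g0, hg0⟩ : ∃ g0, ∀ n, θ g0 ≠ Ty.B n := by
      by_contra hcon
      push Not at hcon
      apply uncountable_I hθ' false []
      convert Set.countable_empty
      ext v
      simp only [Set.mem_ofPred_eq, mem_empty_iff_false, iff_false, not_and]
      intro _ h
      obtain ⟨n, hn⟩ := hcon v
      rw [hθ, h] at hn
      cases hn
    choose! Mf tsf vf hnf using fun (D : Cp (X θ)) (hD : rq D Qt.zero = false) =>
      exists_nf0 D hD
    choose Nf gf hnfu using fun (D : Cp (X θ)) (u : List Bool) => exists_nfu D u g0 hg0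
    obtain ⟨⟨M, ts⟩, hMts⟩ := exists_uncountable_fiber hc (fun D => (Mf D, tsf D))
    have hd : ∀ D ∈ {D | D ∈ 𝒯 ∧ (Mf D, tsf D) = (M, ts)}, IsData M ts D (vf D) (Nf D) (gf D) := by
      rintro D ⟨hD, hMt⟩
      have h1 : Mf D = M := (Prod.ext_iff.1 hMt).1
      have h2 : tsf D = ts := (Prod.ext_iff.1 hMt).2
      have h3 := hnf D (hmem.1 D hD).1
      rw [h1, h2] at h3
      obtain ⟨h4, h5, h6, h7⟩ := h3
      exact ⟨(hmem.1 D hD).1, h4, h5, h6, h7, fun u k => (hnfu D u).1 k,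
        fun u w => (hnfu D u).2 w⟩
    obtain ⟨E, hE0, hEs, hElim⟩ := limit_exists hθ' hθ M ts _ hMts
      (fun D hD D' hD' => hmem.2 D hD.1 D' hD'.1) vf Nf gf hd
    apply h0 E hE0 hEs
    rw [← hF.closure_eq, mem_closure_iff]
    intro o ho hEo
    obtain ⟨I, u, hI1, hI2⟩ := isOpen_pi_iff.1 ho _ hEo
    obtain ⟨D, hD, hDE⟩ := hElim I
    refine ⟨rq D, hI2 ?_, (hmem.1 D hD.1).2⟩
    intro q hq
    rw [hDE q hq]
    exact (hI1 q hq).2

/-- Covering all functions whose support misses a countable set. -/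
theorem cover_aux {θ' : (ℕ → ℕ) → Ty} (hθ' : IsTyping θ') (hθ : ∀ v, θ v = θ' (enc v))
    {ι : Type} (U : ι → Set (Cp (X θ))) (hU : ∀ i, IsOpen (U i))
    (hc : ∀ D : Cp (X θ), rq D Qt.zero = false → supp D = ∅ → ∃ i, D ∈ U i) :
    ∃ t : Set ι, t.Countable ∧ ∃ E : Set (IBr θ), E.Countable ∧
      ∀ D : Cp (X θ), rq D Qt.zero = false → (supp D ∩ E).Nonempty ∨ D ∈ ⋃ i ∈ t, U i := by
  classical
  have hex : ∀ D : Cp (X θ), ∃ (i : Option ι) (F : Finset (X θ)),
      (rq D Qt.zero = false → supp D = ∅ → ∃ j, i = some j ∧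
        ∀ g : Cp (X θ), (∀ a ∈ F, g.1 a = D.1 a) → g ∈ U j) := by
    intro D
    by_cases h : rq D Qt.zero = false ∧ supp D = ∅
    · obtain ⟨i, hi⟩ := hc D h.1 h.2
      obtain ⟨F, hF⟩ := exists_basic (hU i) hi
      exact ⟨some i, F, fun _ _ => ⟨i, rfl, hF⟩⟩
    · exact ⟨none, ∅, fun h1 h2 => absurd ⟨h1, h2⟩ h⟩
  choose i F hiF using hex
  let K0 : Set (Cp (X θ)) := {D | rq D Qt.zero = false ∧ supp D = ∅}
  let W : Cp (X θ) → Set (Qt → Bool) := fun D => {d | ∀ q, X.q q ∈ F D → d q = rq D q}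
  have hW : ∀ D, IsOpen (W D) := by
    intro D
    have hfin : {q : Qt | X.q q ∈ F D}.Finite :=
      Set.Finite.preimage (f := fun q : Qt => (X.q q : X θ)) (by
        intro a _ b _ hab
        injection hab) (F D).finite_toSet
    have : W D = ⋂ q ∈ {q : Qt | X.q q ∈ F D}, (fun d : Qt → Bool => d q) ⁻¹' {rq D q} := by
      ext d
      simp [W]
    rw [this]
    exact hfin.isOpen_biInter fun q _ => (isOpen_discrete _).preimage (continuous_apply q)
  have hR : IsLindelof (rq '' K0) := HereditarilyLindelofSpace.isLindelof _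
  obtain ⟨𝒞, h𝒞, hcov⟩ := hR.elim_countable_subcover (fun D : K0 => W D.1) (fun D => hW D.1) (by
    rintro _ ⟨D, hD, rfl⟩
    exact mem_iUnion.2 ⟨⟨D, hD⟩, fun q _ => rfl⟩)
  obtain ⟨E, hEc, hE⟩ := exists_countable_hit hθ' hθ (⋃ D ∈ 𝒞, W D.1)ᶜ
    (isOpen_biUnion fun D _ => hW D.1).isClosed_compl (by
      intro D h1 h2 h3
      exact h3 (hcov ⟨D, ⟨h1, h2⟩, rfl⟩))
  refine ⟨{j | ∃ D ∈ 𝒞, i D.1 = some j}, ?_, E ∪ {x | ∃ D ∈ 𝒞, ∃ j, X.P x j ∈ F D.1}, ?_, ?_⟩
  · have h1 : ((fun D : K0 => i D.1) '' 𝒞).Countable := h𝒞.image _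
    refine (h1.preimage (Option.some_injective ι)).mono ?_
    rintro j ⟨D, hD, hj⟩
    exact ⟨D, hD, hj⟩
  · refine hEc.union ?_
    have h1 : (⋃ D ∈ 𝒞, {x : IBr θ | ∃ j, X.P x j ∈ F D.1}).Countable := by
      refine h𝒞.biUnion fun D _ => ?_
      have h2 : {x : IBr θ | ∃ j, X.P x j ∈ F D.1} =
          ⋃ j : Bool, (fun x : IBr θ => (X.P x j : X θ)) ⁻¹' (F D.1 : Set (X θ)) := by
        ext x
        simp
      rw [h2]
      refine countable_iUnion fun j => ?_
      refine (F D.1).finite_toSet.countable.preimage ?_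
      intro a b hab
      injection hab
    refine h1.mono ?_
    rintro x ⟨D, hD, j, hj⟩
    exact mem_iUnion₂.2 ⟨D, hD, j, hj⟩
  · intro g hg
    by_cases hgE : (supp g ∩ (E ∪ {x | ∃ D ∈ 𝒞, ∃ j, X.P x j ∈ F D.1})).Nonempty
    · exact Or.inl hgE
    · right
      rw [not_nonempty_iff_eq_empty, eq_empty_iff_forall_notMem] at hgE
      have hgW : rq g ∈ ⋃ D ∈ 𝒞, W D.1 := by
        by_contra hcon
        obtain ⟨x, hx1, hx2⟩ := hE g hg hcon
        exact hgE x ⟨hx1, Or.inl hx2⟩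
      obtain ⟨D, hD, hgD⟩ := mem_iUnion₂.1 hgW
      obtain ⟨j, hj, hjF⟩ := hiF D.1 D.2.1 D.2.2
      refine mem_iUnion₂.2 ⟨j, ⟨D, hD, hj⟩, hjF g ?_⟩
      intro a ha
      rcases a with q | ⟨x, l⟩
      · exact hgD q ha
      · have h1 : x ∉ supp g := fun hx => hgE x ⟨hx, Or.inr ⟨D, hD, l, ha⟩⟩
        have h2 : x ∉ supp D.1 := by
          rw [D.2.2]
          simp
        have h3 : g.1 (X.P x l) = false := by
          cases h : g.1 (X.P x l) with
          | false => rfl
          | true => exact absurd ⟨l, h⟩ h1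
        have h4 : D.1.1 (X.P x l) = false := by
          cases h : D.1.1 (X.P x l) with
          | false => rfl
          | true => exact absurd ⟨l, h⟩ h2
        rw [h3, h4]

/-- The functions vanishing at `zero` with support of size at most `m`. -/
def KK (θ : Br → Ty) (m : ℕ) : Set (Cp (X θ)) :=
  {D | rq D Qt.zero = false ∧ ∃ s : Finset (IBr θ), s.card ≤ m ∧ supp D ⊆ s}

theorem continuous_xorC {Y : Type} [TopologicalSpace Y] (c : Cp Y) :
    Continuous (fun D : Cp Y => xorC D c) := by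
  refine Continuous.subtype_mk (continuous_pi fun a => ?_) _
  exact (continuous_of_discreteTopology (f := fun b : Bool => xor b (c.1 a))).comp
    ((continuous_apply a).comp continuous_subtype_val)

theorem xorC_xorC {Y : Type} [TopologicalSpace Y] (D c : Cp Y) : xorC (xorC D c) c = D := by
  apply Subtype.ext
  funext a
  show xor (xor (D.1 a) (c.1 a)) (c.1 a) = D.1 a
  cases D.1 a <;> cases c.1 a <;> rfl

/-- The multiples of the functions `h_e`. -/
noncomputable def sh (e : IBr θ) (k0 k1 : Bool) : Cp (X θ) :=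
  ⟨fun a => xor (k0 && (dl e false).1 a) (k1 && (dl e true).1 a),
    (continuous_of_discreteTopology (f := fun p : Bool × Bool =>
      xor (k0 && p.1) (k1 && p.2))).comp ((dl e false).2.prodMk (dl e true).2)⟩

theorem sh_zero (e : IBr θ) (k0 k1 : Bool) : (sh e k0 k1).1 (X.q Qt.zero) = false := by
  have h : ∀ i, (dl e i).1 (X.q Qt.zero) = false := by
    intro i
    cases h : (dl e i).1 (X.q Qt.zero) with
    | false => rfl
    | true =>
      rw [dl_q] at h
      simp [hq] at h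
  show xor (k0 && (dl e false).1 (X.q Qt.zero)) (k1 && (dl e true).1 (X.q Qt.zero)) = false
  rw [h, h]
  simp

theorem sh_ne {e y : IBr θ} (h : y ≠ e) (k0 k1 j : Bool) :
    (sh e k0 k1).1 (X.P y j) = false := by
  have h' : ∀ i, (dl e i).1 (X.P y j) = false := by
    intro i
    cases h' : (dl e i).1 (X.P y j) with
    | false => rfl
    | true =>
      rw [dl_P] at h'
      exact absurd h'.1 h
  show xor (k0 && (dl e false).1 (X.P y j)) (k1 && (dl e true).1 (X.P y j)) = false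
  rw [h', h']
  simp

theorem sh_self (e : IBr θ) (k0 k1 j : Bool) :
    (sh e k0 k1).1 (X.P e j) = if j then k1 else k0 := by
  have h1 : ∀ i, (dl e i).1 (X.P e i) = true := fun i => dl_P.2 ⟨rfl, rfl⟩
  have h2 : ∀ i, (dl e i).1 (X.P e (!i)) = false := by
    intro i
    cases h' : (dl e i).1 (X.P e (!i)) with
    | false => rfl
    | true =>
      rw [dl_P] at h'
      have := h'.2
      cases i <;> simp at this
  show xor (k0 && (dl e false).1 (X.P e j)) (k1 && (dl e true).1 (X.P e j)) = _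
  cases j
  · have h3 := h2 true
    simp only [Bool.not_true] at h3
    rw [h1 false, h3]
    simp
  · have h3 := h2 false
    simp only [Bool.not_false] at h3
    rw [h1 true, h3]
    simp

theorem lindelof_KK {θ' : (ℕ → ℕ) → Ty} (hθ' : IsTyping θ') (hθ : ∀ v, θ v = θ' (enc v))
    (m : ℕ) : IsLindelof (KK θ m) := by
  classical
  induction m with
  | zero =>
    apply isLindelof_of_countable_subcover
    intro ι U hU hcov
    -- reduce to a small index type
    obtain ⟨t, ht, E, _, h⟩ := cover_aux hθ' hθ (fun s : {s : Set (Cp (X θ)) // ∃ i, U i = s} => s.1)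
      (by rintro ⟨s, i, rfl⟩; exact hU i) (by
        intro D h1 h2
        have : D ∈ KK θ 0 := ⟨h1, ∅, by simp, by rw [h2]; simp⟩
        obtain ⟨i, hi⟩ := mem_iUnion.1 (hcov this)
        exact ⟨⟨U i, i, rfl⟩, hi⟩)
    choose f hf using fun s : {s : Set (Cp (X θ)) // ∃ i, U i = s} => s.2
    refine ⟨f '' t, ht.image _, ?_⟩
    rintro D ⟨hD0, s, hs, hDs⟩
    have hs0 : s = ∅ := Finset.card_eq_zero.1 (Nat.le_zero.1 hs)
    subst hs0
    rcases h D hD0 with ⟨x, hx, _⟩ | h
    · have := hDs hx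
      simp at this
    · obtain ⟨a, hat, haD⟩ := mem_iUnion₂.1 h
      refine mem_iUnion₂.2 ⟨f a, mem_image_of_mem _ hat, ?_⟩
      rw [hf a]
      exact haD
  | succ m ih =>
    apply isLindelof_of_countable_subcover
    intro ι U hU hcov
    have hsub : ∀ D : Cp (X θ), rq D Qt.zero = false → supp D = ∅ → D ∈ KK θ (m + 1) :=
      fun D h1 h2 => ⟨h1, ∅, by simp, by rw [h2]; simp⟩
    obtain ⟨t, ht, E, hE, h⟩ := cover_aux hθ' hθ
      (fun s : {s : Set (Cp (X θ)) // ∃ i, U i = s} => s.1)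
      (by rintro ⟨s, i, rfl⟩; exact hU i) (by
        intro D h1 h2
        obtain ⟨i, hi⟩ := mem_iUnion.1 (hcov (hsub D h1 h2))
        exact ⟨⟨U i, i, rfl⟩, hi⟩)
    choose f hf using fun s : {s : Set (Cp (X θ)) // ∃ i, U i = s} => s.2
    let L : IBr θ → Set (Cp (X θ)) := fun e =>
      ⋃ k : Bool × Bool, (fun D => xorC D (sh e k.1 k.2)) '' (KK θ m)
    have hL : IsLindelof (⋃ e ∈ E, L e) := by
      refine hE.isLindelof_biUnion fun e _ => isLindelof_iUnion fun k => ?_
      exact ih.image (continuous_xorC _)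
    have hLsub : (⋃ e ∈ E, L e) ⊆ KK θ (m + 1) := by
      intro D hD
      obtain ⟨e, _, hDe⟩ := mem_iUnion₂.1 hD
      obtain ⟨k, D', ⟨hD'0, s, hs, hD's⟩, rfl⟩ := mem_iUnion.1 hDe
      refine ⟨?_, insert e s, (Finset.card_insert_le _ _).trans (by omega), ?_⟩
      · show xor (D'.1 (X.q Qt.zero)) ((sh e k.1 k.2).1 (X.q Qt.zero)) = false
        rw [sh_zero, show D'.1 (X.q Qt.zero) = false from hD'0]
        rfl
      · rintro x ⟨j, hj⟩
        by_cases hxe : x = e
        · simp [hxe]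
        · have h1 : xor (D'.1 (X.P x j)) ((sh e k.1 k.2).1 (X.P x j)) = true := hj
          rw [sh_ne hxe] at h1
          have h2 : D'.1 (X.P x j) = true := by simpa using h1
          have := hD's ⟨j, h2⟩
          simp only [Finset.coe_insert]
          exact Or.inr this
    obtain ⟨t', ht', hcov'⟩ := hL.elim_countable_subcover U hU (hLsub.trans hcov)
    refine ⟨f '' t ∪ t', (ht.image _).union ht', ?_⟩
    intro D hD
    obtain ⟨hD0, s, hs, hDs⟩ := hD
    rcases h D hD0 with ⟨e, he, heE⟩ | h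
    · have hDL : D ∈ ⋃ e ∈ E, L e := by
        refine mem_iUnion₂.2 ⟨e, heE, mem_iUnion.2
          ⟨(D.1 (X.P e false), D.1 (X.P e true)),
            xorC D (sh e (D.1 (X.P e false)) (D.1 (X.P e true))), ?_, xorC_xorC _ _⟩⟩
        refine ⟨?_, s.erase e, ?_, ?_⟩
        · show xor (D.1 (X.q Qt.zero)) ((sh e _ _).1 (X.q Qt.zero)) = false
          rw [sh_zero, show D.1 (X.q Qt.zero) = false from hD0]
          rfl
        · rw [Finset.card_erase_of_mem (hDs he)]
          omega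
        · rintro x ⟨j, hj⟩
          have h1 : xor (D.1 (X.P x j))
            ((sh e (D.1 (X.P e false)) (D.1 (X.P e true))).1 (X.P x j)) = true := hj
          by_cases hxe : x = e
          · subst hxe
            rw [sh_self] at h1
            cases j <;> simp at h1
          · rw [sh_ne hxe] at h1
            have h2 : D.1 (X.P x j) = true := by simpa using h1
            have := hDs ⟨j, h2⟩
            simp only [Finset.coe_erase]
            exact ⟨this, hxe⟩
      obtain ⟨i, hi, hiD⟩ := mem_iUnion₂.1 (hcov' hDL)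
      exact mem_iUnion₂.2 ⟨i, Or.inr hi, hiD⟩
    · obtain ⟨a, hat, haD⟩ := mem_iUnion₂.1 h
      refine mem_iUnion₂.2 ⟨f a, Or.inl (mem_image_of_mem _ hat), ?_⟩
      rw [hf a]
      exact haD

/-- The space of continuous functions to the two-point space is Lindelöf. -/
theorem lindelof_Cp {θ' : (ℕ → ℕ) → Ty} (hθ' : IsTyping θ') (hθ : ∀ v, θ v = θ' (enc v)) :
    LindelofSpace (Cp (X θ)) := by
  classical
  rw [← isLindelof_univ_iff]
  have h1 : IsLindelof (⋃ m, KK θ m) := isLindelof_iUnion fun m => lindelof_KK hθ' hθ m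
  let one : Cp (X θ) := ⟨fun _ => true, continuous_const⟩
  have h2 : IsLindelof ((fun D => xorC D one) '' (⋃ m, KK θ m)) :=
    h1.image (continuous_xorC _)
  have hz : ∀ D : Cp (X θ), rq D Qt.zero = false → D ∈ ⋃ m, KK θ m := by
    intro D hD
    refine mem_iUnion.2 ⟨(supp_finite hD).toFinset.card, hD, (supp_finite hD).toFinset, le_rfl, ?_⟩
    simp
  convert h1.union h2
  symm
  rw [eq_univ_iff_forall]
  intro D
  cases hD : rq D Qt.zero with
  | false => exact Or.inl (hz D hD)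
  | true =>
    right
    refine ⟨xorC D one, hz _ ?_, xorC_xorC _ _⟩
    show xor (D.1 (X.q Qt.zero)) true = false
    rw [show D.1 (X.q Qt.zero) = true from hD]
    rfl

end Pool.Agent.D76130
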