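import Pool.Agent.D76130.Types

/-!
# Normal forms of continuous functions
-/

namespace Pool.Agent.D76130

open Set Filter

variable {θ : Br → Ty}

/-- The support of a continuous function. -/
def supp (D : Cp (X θ)) : Set (IBr θ) := {x | ∃ i, D.1 (X.P x i) = true}

/-- The restriction to the countable part. -/
def rq (D : Cp (X θ)) : Qt → Bool := fun q => D.1 (X.q q)

theorem supp_finite {D : Cp (X θ)} (hD : rq D Qt.zero = false) : (supp D).Finite := by
  obtain ⟨M, G, hG, _, h2⟩ := continuous_iff_openAt.1 D.2 (X.q Qt.zero)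
  refine (hG.preimage (Subtype.val_injective.injOn)).subset ?_
  rintro x ⟨i, hi⟩
  by_contra hx
  have h3 : D.1 (X.P x i) = D.1 (X.q Qt.zero) := h2 x i hx
  rw [hi] at h3
  exact absurd (h3.trans hD) (by simp)

/-- The condition satisfied by a special branch with target type `t`. -/
def Good (M : ℕ) (d : Qt → Bool) (v : Br) : Ty → Prop
  | Ty.I _ => False
  | Ty.A1 => ∀ q, M ≤ (base q).length → hq v q = some false → d q = false
  | Ty.A2 => ∀ q, M ≤ (base q).length → hq v q = some true → d q = false
  | Ty.B n => ∀ w : List Bool, M ≤ w.length → Pre (pf v n ++ w) v →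
      d (Qt.s (pf v n) w) = d (Qt.cen (pf v n))

theorem eq_zero_of_hq {v : Br} {q : Qt} (h : hq v q = none) (hp : Pre (base q) v) :
    q = Qt.zero := by
  rcases q with _ | u | t | ⟨u, w⟩
  · rfl
  · simp only [base] at hp
    simp [hq, hp] at h
  · simp only [base] at hp
    simp [hq, hp] at h
  · simp only [base] at hp
    by_cases h' : Pre (u ++ w) v <;> simp [hq, hp, h'] at h

theorem exists_nf0 (D : Cp (X θ)) (hD : rq D Qt.zero = false) :
    ∃ (M : ℕ) (ts : List Ty) (v : ℕ → Br),
      (∀ i < ts.length, ∀ j < ts.length, i ≠ j → pf (v i) M ≠ pf (v j) M) ∧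
      (∀ q, M ≤ (base q).length → (∀ i < ts.length, ¬ Pre (base q) (v i)) → rq D q = false) ∧
      (∀ i < ts.length, Good M (rq D) (v i) (ts.getD i default)) ∧
      (∀ i < ts.length, θ (v i) = ts.getD i default ∨ ∃ x ∈ supp D, x.1 = v i) := by
  classical
  obtain ⟨M0, G, hG, h1, h2⟩ := continuous_iff_openAt.1 D.2 (X.q Qt.zero)
  have e1 : ∀ᶠ M in atTop, ∀ v ∈ G, ∀ v' ∈ G, v ≠ v' → pf v M ≠ pf v' M := by
    rw [eventually_all_finite hG]
    intro v _
    rw [eventually_all_finite hG]
    intro v' _
    by_cases h : v = v'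
    · exact Eventually.of_forall fun M hne => absurd h hne
    · obtain ⟨M, hM⟩ := exists_sep h
      filter_upwards [eventually_ge_atTop M] with n hn _
      exact hM n hn
  have e2 : ∀ᶠ M in atTop, ∀ v ∈ G, ∀ x : IBr θ, x.1 = v → ∀ i, ∀ q, M ≤ (base q).length →
      hq v q = some i → rq D q = D.1 (X.P x i) := by
    rw [eventually_all_finite hG]
    intro v _
    by_cases h : ∃ x : IBr θ, x.1 = v
    · obtain ⟨x, rfl⟩ := h
      obtain ⟨K0, hK0⟩ := continuous_iff_openAt.1 D.2 (X.P x false)
      obtain ⟨K1, hK1⟩ := continuous_iff_openAt.1 D.2 (X.P x true)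
      filter_upwards [eventually_ge_atTop (max K0 K1)] with M hM y hy i q hqM hqi
      have hxy : y = x := Subtype.ext hy
      subst hxy
      cases i
      · exact hK0 q (by omega) hqi
      · exact hK1 q (by omega) hqi
    · exact Eventually.of_forall fun M x hx => absurd ⟨x, hx⟩ h
  have e3 : ∀ᶠ M in atTop, ∀ v ∈ G, ∀ n, θ v = Ty.B n → ∀ w : List Bool, M ≤ w.length →
      Pre (pf v n ++ w) v → rq D (Qt.s (pf v n) w) = rq D (Qt.cen (pf v n)) := by
    rw [eventually_all_finite hG]
    intro v _
    by_cases h : ∃ n, θ v = Ty.B n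
    · obtain ⟨n, hn⟩ := h
      obtain ⟨K, G', hG', hGn, h3⟩ := continuous_iff_openAt.1 D.2 (X.q (Qt.cen (pf v n)))
      obtain ⟨K', hK'⟩ := exists_sep_finite (v := v) hG'
      filter_upwards [eventually_ge_atTop (max K K')] with M hM n' hn' w hw hp
      have hnn : n' = n := by
        rw [hn] at hn'
        injection hn' with h
        exact h.symm
      subst hnn
      refine h3 w (by omega) ?_
      intro g hg hpg
      have hne : v ≠ g := by
        rintro rfl
        apply hGn _ hg
        rw [hn, pf_length]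
      refine hK' g hg hne _ ?_ hp hpg
      rw [List.length_append]
      omega
    · exact Eventually.of_forall fun M n hn => absurd ⟨n, hn⟩ h
  obtain ⟨M, ⟨⟨he1, he2⟩, he3⟩, he4⟩ := (((e1.and e2).and e3).and (eventually_ge_atTop M0)).exists
  have hact : ∀ q, M ≤ (base q).length → ∀ v ∈ G, Pre (base q) v → ∀ v' ∈ G, Pre (base q) v' →
      v = v' := by
    intro q hq' v hv hp v' hv' hp'
    by_contra hne
    exact he1 v hv v' hv' hne (hp.agree hp' hq')
  have hall : ∀ v ∈ G, (∃ t, Good M (rq D) v t ∧ (θ v = t ∨ ∃ x ∈ supp D, x.1 = v)) ∨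
      (∀ q, M ≤ (base q).length → ∀ i, hq v q = some i → rq D q = false) := by
    intro v hv
    cases hty : θ v with
    | A1 =>
      left
      refine ⟨Ty.A1, ?_, Or.inl rfl⟩
      intro q hqM hqv
      have h3 := h1 q (by omega) (by
        intro v' hv' hp'
        have := hact q hqM v hv (pre_of_hq hqv) v' hv' hp'
        subst this
        exact Or.inl ⟨hty, hqv⟩)
      exact h3.trans hD
    | A2 =>
      left
      refine ⟨Ty.A2, ?_, Or.inl rfl⟩
      intro q hqM hqv
      have h3 := h1 q (by omega) (by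
        intro v' hv' hp'
        have := hact q hqM v hv (pre_of_hq hqv) v' hv' hp'
        subst this
        exact Or.inr ⟨hty, hqv⟩)
      exact h3.trans hD
    | B n =>
      left
      exact ⟨Ty.B n, he3 v hv n hty, Or.inl rfl⟩
    | I b =>
      set x : IBr θ := ⟨v, b, hty⟩ with hx
      have hxe := he2 v hv x rfl
      cases h0 : D.1 (X.P x false) <;> cases h1' : D.1 (X.P x true)
      · right
        intro q hqM i hqi
        rw [hxe i q hqM hqi]
        cases i
        · exact h0
        · exact h1'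
      · left
        refine ⟨Ty.A1, ?_, Or.inr ⟨x, ⟨true, h1'⟩, rfl⟩⟩
        intro q hqM hqv
        rw [hxe false q hqM hqv, h0]
      · left
        refine ⟨Ty.A2, ?_, Or.inr ⟨x, ⟨false, h0⟩, rfl⟩⟩
        intro q hqM hqv
        rw [hxe true q hqM hqv, h1']
      · left
        refine ⟨Ty.B M, ?_, Or.inr ⟨x, ⟨false, h0⟩, rfl⟩⟩
        intro w _ hp
        rw [hxe true (Qt.s (pf v M) w) (by simp [base]) (by simp [hq, hp]),
          hxe false (Qt.cen (pf v M)) (by simp [base]) (by simp [hq, pre_pf]), h0, h1']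
  set G1 : Set Br := {v ∈ G | ∃ t, Good M (rq D) v t ∧ (θ v = t ∨ ∃ x ∈ supp D, x.1 = v)} with hG1
  have hG1f : G1.Finite := hG.subset (sep_subset _ _)
  choose! tgt htgt using fun (v : Br) (hv : v ∈ G1) => hv.2
  set l := hG1f.toFinset.toList with hl
  have hlnd : l.Nodup := Finset.nodup_toList _
  have hlmem : ∀ v, v ∈ l ↔ v ∈ G1 := by
    intro v
    rw [hl, Finset.mem_toList, Set.Finite.mem_toFinset]
  have hget : ∀ i (hi : i < l.length), l[i] ∈ G1 := fun i hi =>
    (hlmem _).1 (List.getElem_mem hi)
  refine ⟨M, l.map tgt, fun i => l.getD i default, ?_, ?_, ?_, ?_⟩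
  · intro i hi j hj hij
    rw [List.length_map] at hi hj
    simp only [List.getD_eq_getElem _ _ hi, List.getD_eq_getElem _ _ hj]
    refine he1 _ (hget i hi).1 _ (hget j hj).1 ?_
    intro h
    exact hij ((hlnd.getElem_inj_iff).1 h)
  · intro q hqM hno
    rw [List.length_map] at hno
    by_cases hex : ∃ v ∈ G, Pre (base q) v
    · obtain ⟨v, hv, hp⟩ := hex
      rcases hall v hv with h3 | h3
      · exfalso
        have hvl : v ∈ l := (hlmem v).2 ⟨hv, h3⟩
        obtain ⟨i, hi, rfl⟩ := List.getElem_of_mem hvl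
        apply hno i hi
        show Pre (base q) (l.getD i default)
        rw [List.getD_eq_getElem _ _ hi]
        exact hp
      · cases hqv : hq v q with
        | none =>
          rw [eq_zero_of_hq hqv hp]
          exact hD
        | some i => exact h3 q hqM i hqv
    · push Not at hex
      exact (h1 q (by omega) fun v hv hp => absurd hp (hex v hv)).trans hD
  · intro i hi
    rw [List.length_map] at hi
    simp only [List.getD_eq_getElem _ _ hi, List.getD_eq_getElem _ _ (by simpa using hi :
      i < (l.map tgt).length), List.getElem_map]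
    exact (htgt _ (hget i hi)).1
  · intro i hi
    rw [List.length_map] at hi
    simp only [List.getD_eq_getElem _ _ hi, List.getD_eq_getElem _ _ (by simpa using hi :
      i < (l.map tgt).length), List.getElem_map]
    exact (htgt _ (hget i hi)).2

theorem exists_nfu (D : Cp (X θ)) (u : List Bool) (g0 : Br) (hg0 : ∀ n, θ g0 ≠ Ty.B n) :
    ∃ (N : ℕ) (g : ℕ → Br), (∀ k, θ (g k) ≠ Ty.B u.length) ∧
      ∀ w : List Bool, N ≤ w.length → (∀ k < N, ¬ Pre (u ++ w) (g k)) →
        rq D (Qt.s u w) = rq D (Qt.cen u) := by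
  classical
  obtain ⟨M, G, hG, h1, h2⟩ := continuous_iff_openAt.1 D.2 (X.q (Qt.cen u))
  set l := hG.toFinset.toList with hl
  have hlmem : ∀ v, v ∈ l ↔ v ∈ G := by
    intro v
    rw [hl, Finset.mem_toList, Set.Finite.mem_toFinset]
  refine ⟨max M l.length, fun k => l.getD k g0, ?_, ?_⟩
  · intro k
    show θ (l.getD k g0) ≠ Ty.B u.length
    by_cases hk : k < l.length
    · rw [List.getD_eq_getElem _ _ hk]
      exact h1 _ ((hlmem _).1 (List.getElem_mem hk))
    · rw [List.getD_eq_default _ _ (by omega)]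
      exact hg0 _
  · intro w hw hno
    refine h2 w (by omega) ?_
    intro g hg hp
    obtain ⟨i, hi, rfl⟩ := List.getElem_of_mem ((hlmem g).2 hg)
    apply hno i (by omega)
    show Pre (u ++ w) (l.getD i g0)
    rw [List.getD_eq_getElem _ _ hi]
    exact hp

end Pool.Agent.D76130
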