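import Pool.Agent.D76130.Space

/-!
# The square of the function space is not normal

The pairs of functions `(h_x = 1, h_x = 2)` form a closed discrete subset of the square of the
function space, and two uncountable parts of it cannot be separated.
-/

namespace Pool.Agent.D76130

open Set

/-- The space of continuous functions to the two-point space, with pointwise convergence. -/
abbrev Cp (Y : Type) [TopologicalSpace Y] : Type := {f : Y → Bool // Continuous f}

variable {θ : Br → Ty}

theorem exists_deep (z : Br) (j : Bool) (M : ℕ) : ∃ q, M ≤ (base q).length ∧ hq z q = some j := by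
  cases j
  · exact ⟨Qt.cen (pf z M), by simp [base], by simp [hq, pre_pf]⟩
  · exact ⟨Qt.r (pf z M), by simp [base], by simp [hq, pre_pf]⟩

/-- Continuous functions are determined by their restriction to the countable part. -/
theorem eq_of_eq_q {f g : X θ → Bool} (hf : Continuous f) (hg : Continuous g)
    (h : ∀ q, f (X.q q) = g (X.q q)) : f = g := by
  funext a
  rcases a with q | ⟨z, j⟩
  · exact h q
  · obtain ⟨M, hM⟩ := continuous_iff_openAt.1 hf (X.P z j)
    obtain ⟨M', hM'⟩ := continuous_iff_openAt.1 hg (X.P z j)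
    obtain ⟨q, hq1, hq2⟩ := exists_deep z.1 j (max M M')
    have h1 : f (X.q q) = f (X.P z j) := hM q (by omega) hq2
    have h2 : g (X.q q) = g (X.P z j) := hM' q (by omega) hq2
    rw [← h1, ← h2, h q]

/-- The function `h_x = i`. -/
noncomputable def dl (x : IBr θ) (i : Bool) : Cp (X θ) :=
  ⟨(NP x i 0).boolIndicator, (continuous_boolIndicator_iff_isClopen _).2 (isClopen_NP x i 0)⟩

theorem dl_q {x : IBr θ} {i : Bool} {q : Qt} :
    (dl x i).1 (X.q q) = true ↔ hq x.1 q = some i := by
  show (NP x i 0).boolIndicator _ = true ↔ _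
  rw [← Set.mem_iff_boolIndicator, mem_NP_inl]
  simp

theorem dl_P {x y : IBr θ} {i j : Bool} :
    (dl x i).1 (X.P y j) = true ↔ y = x ∧ j = i := by
  show (NP x i 0).boolIndicator _ = true ↔ _
  rw [← Set.mem_iff_boolIndicator, mem_NP_inr]

/-- The point of the square given by `x`. -/
noncomputable def dd (x : IBr θ) : Cp (X θ) × Cp (X θ) := (dl x false, dl x true)

theorem dd_injective : Function.Injective (dd (θ := θ)) := by
  intro x y h
  have h1 : (dl x false).1 (X.P x false) = true := dl_P.2 ⟨rfl, rfl⟩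
  have h2 : dl x false = dl y false := congrArg Prod.fst h
  rw [h2] at h1
  exact (dl_P.1 h1).1

/-- The pairs that agree with a given pair on a finite set form an open set. -/
theorem isOpen_agree {Y : Type} [TopologicalSpace Y] (F : Finset Y) (E : Cp Y × Cp Y) :
    IsOpen {s : Cp Y × Cp Y | ∀ a ∈ F, s.1.1 a = E.1.1 a ∧ s.2.1 a = E.2.1 a} := by
  have : {s : Cp Y × Cp Y | ∀ a ∈ F, s.1.1 a = E.1.1 a ∧ s.2.1 a = E.2.1 a} =
      ⋂ a ∈ F, ((fun s : Cp Y × Cp Y => s.1.1 a) ⁻¹' {E.1.1 a} ∩
        (fun s : Cp Y × Cp Y => s.2.1 a) ⁻¹' {E.2.1 a}) := by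
    ext s
    simp
  rw [this]
  refine isOpen_biInter_finset fun a _ => ?_
  refine IsOpen.inter ?_ ?_
  · refine (isOpen_discrete _).preimage ?_
    exact (continuous_apply a).comp (continuous_subtype_val.comp continuous_fst)
  · refine (isOpen_discrete _).preimage ?_
    exact (continuous_apply a).comp (continuous_subtype_val.comp continuous_snd)

theorem exists_basic {Y : Type} [TopologicalSpace Y] {U : Set (Cp Y)} (hU : IsOpen U) {f : Cp Y}
    (hf : f ∈ U) : ∃ F : Finset Y, ∀ g : Cp Y, (∀ a ∈ F, g.1 a = f.1 a) → g ∈ U := by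
  obtain ⟨V, hV, rfl⟩ := isOpen_induced_iff.1 hU
  obtain ⟨F, u, h1, h2⟩ := isOpen_pi_iff.1 hV f.1 hf
  refine ⟨F, fun g hg => h2 ?_⟩
  intro a ha
  rw [hg a ha]
  exact (h1 a ha).2

theorem exists_basic₂ {Y : Type} [TopologicalSpace Y] {U : Set (Cp Y × Cp Y)} (hU : IsOpen U)
    {E : Cp Y × Cp Y} (hE : E ∈ U) : ∃ F : Finset Y, ∀ s : Cp Y × Cp Y,
      (∀ a ∈ F, s.1.1 a = E.1.1 a ∧ s.2.1 a = E.2.1 a) → s ∈ U := by
  classical
  obtain ⟨U1, U2, h1, h2, h3, h4, h5⟩ := isOpen_prod_iff.1 hU E.1 E.2 hE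
  obtain ⟨F1, hF1⟩ := exists_basic h1 h3
  obtain ⟨F2, hF2⟩ := exists_basic h2 h4
  refine ⟨F1 ∪ F2, fun s hs => h5 ⟨hF1 _ fun a ha => (hs a ?_).1, hF2 _ fun a ha => (hs a ?_).2⟩⟩
  · exact Finset.mem_union_left _ ha
  · exact Finset.mem_union_right _ ha

/-- The size of a point of the countable part. -/
def size : Qt → ℕ
  | Qt.zero => 0
  | Qt.cen u => u.length
  | Qt.r t => t.length
  | Qt.s u w => (u ++ w).length

theorem pre_congr {u : List Bool} {v v' : Br} {n : ℕ} (h : pf v n = pf v' n)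
    (hu : u.length ≤ n) : Pre u v ↔ Pre u v' := by
  unfold Pre
  rw [← take_pf v n _ hu, ← take_pf v' n _ hu, h]

theorem base_le_size (q : Qt) : (base q).length ≤ size q := by
  rcases q with _ | u | t | ⟨u, w⟩ <;> simp [base, size]

theorem hq_congr {v v' : Br} {n : ℕ} (h : pf v n = pf v' n) {q : Qt} (hs : size q ≤ n) :
    hq v q = hq v' q := by
  rcases q with _ | u | t | ⟨u, w⟩
  · rfl
  · simp only [hq, pre_congr h hs]
  · simp only [hq, pre_congr h hs]
  · have h1 : u.length ≤ n := by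
      simp only [size, List.length_append] at hs
      omega
    simp only [hq, pre_congr h hs, pre_congr h h1]

theorem isClosed_of_pf (K : Set Br) (n : ℕ) (h : ∀ y y', pf y n = pf y' n → y ∈ K → y' ∈ K) :
    IsClosed K := by
  rw [← isOpen_compl_iff, isOpen_iff_forall_mem_open]
  intro y hy
  refine ⟨{y' | ∀ i ∈ Finset.range n, y' i = y i}, ?_, ?_, ?_⟩
  · intro y' hy' hK
    refine hy (h y' y ?_ hK)
    rw [pf_eq_iff]
    intro i hi
    exact hy' i (Finset.mem_range.2 hi)
  · have : {y' : Br | ∀ i ∈ Finset.range n, y' i = y i} =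
        ⋂ i ∈ Finset.range n, (fun y' : Br => y' i) ⁻¹' {y i} := by
      ext y'
      simp
    rw [this]
    exact isOpen_biInter_finset fun i _ => (isOpen_discrete _).preimage (continuous_apply i)
  · intro i _
    rfl

/-- Every set of points of the form `dd x` is closed. -/
theorem isClosed_dd (Z : Set (IBr θ)) : IsClosed (dd '' Z) := by
  classical
  apply isClosed_of_closure_subset
  intro E hE
  have hfin : ∀ F : Finset (X θ), ∃ x ∈ Z, ∀ a ∈ F,
      (dl x false).1 a = E.1.1 a ∧ (dl x true).1 a = E.2.1 a := by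
    intro F
    obtain ⟨s, hs1, x, hx, rfl⟩ := mem_closure_iff.1 hE _ (isOpen_agree F E) (by
      intro a _
      exact ⟨rfl, rfl⟩)
    exact ⟨x, hx, hs1⟩
  -- a branch
  set K : Qt → Set Br := fun q => {y | (E.1.1 (X.q q) = true ↔ hq y q = some false) ∧
    (E.2.1 (X.q q) = true ↔ hq y q = some true)} with hK
  have hKc : ∀ q, IsClosed (K q) := by
    intro q
    apply isClosed_of_pf _ (size q)
    rintro y y' hyy' ⟨h1, h2⟩
    rw [hq_congr hyy' le_rfl] at h1 h2
    exact ⟨h1, h2⟩
  have hKn : ((Set.univ : Set Br) ∩ ⋂ q, K q).Nonempty := by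
    apply isCompact_univ.inter_iInter_nonempty K hKc
    intro u
    obtain ⟨x, _, hx⟩ := hfin (u.image X.q)
    refine ⟨x.1, mem_univ _, ?_⟩
    rw [mem_iInter₂]
    intro q hq
    obtain ⟨h1, h2⟩ := hx (X.q q) (Finset.mem_image_of_mem _ hq)
    constructor
    · rw [← h1, dl_q]
    · rw [← h2, dl_q]
  obtain ⟨y, _, hy⟩ := hKn
  rw [mem_iInter] at hy
  have hI : ∃ b, θ y = Ty.I b := by
    cases hty : θ y with
    | I b => exact ⟨b, rfl⟩
    | A1 =>
      exfalso
      obtain ⟨M, G, hG, h1, _⟩ := continuous_iff_openAt.1 E.1.2 (X.q Qt.zero)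
      obtain ⟨K', hK'⟩ := exists_sep_finite (v := y) hG
      have h3 := h1 (Qt.cen (pf y (max M K'))) (by simp [base]) (by
        intro v hv hp
        by_cases hvy : y = v
        · subst hvy
          exact Or.inl ⟨hty, by simp [hq, pre_pf]⟩
        · exact absurd hp (hK' v hv hvy _ (by simp [base]) (pre_pf _ _)))
      have h4 : E.1.1 (X.q (Qt.cen (pf y (max M K')))) = true :=
        (hy _).1.2 (by simp [hq, pre_pf])
      have h5 : E.1.1 (X.q Qt.zero) = true := by
        rw [← h4]
        exact h3.symm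
      have h6 := (hy _).1.1 h5
      simp [hq] at h6
    | A2 =>
      exfalso
      obtain ⟨M, G, hG, h1, _⟩ := continuous_iff_openAt.1 E.2.2 (X.q Qt.zero)
      obtain ⟨K', hK'⟩ := exists_sep_finite (v := y) hG
      have h3 := h1 (Qt.r (pf y (max M K'))) (by simp [base]) (by
        intro v hv hp
        by_cases hvy : y = v
        · subst hvy
          exact Or.inr ⟨hty, by simp [hq, pre_pf]⟩
        · exact absurd hp (hK' v hv hvy _ (by simp [base]) (pre_pf _ _)))
      have h4 : E.2.1 (X.q (Qt.r (pf y (max M K')))) = true :=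
        (hy _).2.2 (by simp [hq, pre_pf])
      have h5 : E.2.1 (X.q Qt.zero) = true := by
        rw [← h4]
        exact h3.symm
      have h6 := (hy _).2.1 h5
      simp [hq] at h6
    | B n =>
      exfalso
      obtain ⟨M, G, hG, hGn, h1⟩ := continuous_iff_openAt.1 E.1.2 (X.q (Qt.cen (pf y n)))
      obtain ⟨K', hK'⟩ := exists_sep_finite (v := y) hG
      obtain ⟨w, hw1, hw2⟩ := (pre_pf y n).exists_append (max M K')
      have h3 := h1 w (by omega) (by
        intro g hg hp
        have hne : y ≠ g := by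
          rintro rfl
          apply hGn _ hg
          rw [hty, pf_length]
        refine hK' g hg hne _ ?_ hw2 hp
        rw [List.length_append]
        omega)
      have h4 : E.1.1 (X.q (Qt.cen (pf y n))) = true :=
        (hy _).1.2 (by simp [hq, pre_pf])
      have h5 : E.1.1 (X.q (Qt.s (pf y n) w)) = true := by
        rw [← h4]
        exact h3
      have h6 := (hy _).1.1 h5
      simp [hq, hw2] at h6
  obtain ⟨b, hb⟩ := hI
  set x : IBr θ := ⟨y, b, hb⟩ with hx
  have hxZ : x ∈ Z := by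
    obtain ⟨M, hM⟩ := continuous_iff_openAt.1 E.1.2 (X.P x false)
    obtain ⟨q, hq1, hq2⟩ := exists_deep y false M
    have h1 : E.1.1 (X.q q) = true := (hy q).1.2 hq2
    have h2 : E.1.1 (X.P x false) = true := by
      rw [← h1]
      exact (hM q hq1 hq2).symm
    obtain ⟨z, hz, hz'⟩ := hfin {X.P x false}
    have h3 := (hz' _ (Finset.mem_singleton_self _)).1
    rw [h2, dl_P] at h3
    rw [h3.1]
    exact hz
  refine ⟨x, hxZ, ?_⟩
  have e1 : (dl x false) = E.1 := by
    apply Subtype.ext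
    apply eq_of_eq_q (dl x false).2 E.1.2
    intro q
    rw [Bool.eq_iff_iff, dl_q]
    exact (hy q).1.symm
  have e2 : (dl x true) = E.2 := by
    apply Subtype.ext
    apply eq_of_eq_q (dl x true).2 E.2.2
    intro q
    rw [Bool.eq_iff_iff, dl_q]
    exact (hy q).2.symm
  show (dl x false, dl x true) = E
  rw [e1, e2]

/-- The pointwise exclusive or of two continuous functions. -/
def xorC {Y : Type} [TopologicalSpace Y] (f g : Cp Y) : Cp Y :=
  ⟨fun a => xor (f.1 a) (g.1 a),
    (continuous_of_discreteTopology (f := fun p : Bool × Bool => xor p.1 p.2)).comp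
      (f.2.prodMk g.2)⟩

theorem exists_interp (F : Finset (X θ)) (g : X θ → Bool) :
    ∃ f : Cp (X θ), ∀ a ∈ F, f.1 a = g a := by
  classical
  induction F using Finset.induction_on with
  | empty => exact ⟨⟨fun _ => false, continuous_const⟩, by simp⟩
  | insert a F ha ih =>
    obtain ⟨f, hf⟩ := ih
    obtain ⟨N, hN1, hN2, hN3⟩ := exists_clopen (U := ((F : Set (X θ)))ᶜ)
      (Set.Finite.isClosed F.finite_toSet).isOpen_compl (a := a) (by simpa using ha)
    set χ : Cp (X θ) := ⟨N.boolIndicator, (continuous_boolIndicator_iff_isClopen _).2 hN1⟩ with hχ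
    have h1 : χ.1 a = true := (Set.mem_iff_boolIndicator _ _).1 hN2
    have h2 : ∀ b ∈ F, χ.1 b = false := fun b hb =>
      (Set.notMem_iff_boolIndicator _ _).1 (fun h => hN3 h hb)
    by_cases hga : f.1 a = g a
    · refine ⟨f, fun b hb => ?_⟩
      rcases Finset.mem_insert.1 hb with rfl | hb
      · exact hga
      · exact hf b hb
    · refine ⟨xorC f χ, fun b hb => ?_⟩
      rcases Finset.mem_insert.1 hb with rfl | hb
      · show xor (f.1 b) (χ.1 b) = g b
        rw [h1]
        cases h : f.1 b <;> cases h' : g b <;> simp_all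
      · show xor (f.1 b) (χ.1 b) = g b
        rw [h2 b hb, hf b hb]
        simp

theorem exists_uncountable_fiber {α β : Type} [Countable β] {S : Set α} (hS : ¬ S.Countable)
    (g : α → β) : ∃ b, ¬ {a | a ∈ S ∧ g a = b}.Countable := by
  by_contra hcon
  push Not at hcon
  apply hS
  refine (countable_iUnion hcon).mono ?_
  intro a ha
  exact mem_iUnion.2 ⟨g a, ha, rfl⟩

/-- The square is not normal. -/
theorem not_normal (hθ : ∀ (b : Bool) (t : List Bool), ¬ {v : Br | Pre t v ∧ θ v = Ty.I b}.Countable) :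
    ¬ NormalSpace (Cp (X θ) × Cp (X θ)) := by
  classical
  intro hnorm
  set Z : Bool → Set (IBr θ) := fun b => {x | θ x.1 = Ty.I b} with hZ
  have hdisj : Disjoint (dd '' Z false) (dd '' Z true) := by
    rw [Set.disjoint_left]
    rintro _ ⟨x, hx, rfl⟩ ⟨y, hy, hxy⟩
    rw [dd_injective hxy] at hy
    have : Ty.I false = Ty.I true := hx.symm.trans hy
    cases this
  obtain ⟨U, V, hU, hV, hZU, hZV, hUV⟩ := hnorm.normal _ _ (isClosed_dd (Z false))
    (isClosed_dd (Z true)) hdisj
  have hex : ∀ x : IBr θ, ∃ F : Finset (X θ),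
      (x ∈ Z false → ∀ s : Cp (X θ) × Cp (X θ),
        (∀ a ∈ F, s.1.1 a = (dd x).1.1 a ∧ s.2.1 a = (dd x).2.1 a) → s ∈ U) ∧
      (x ∈ Z true → ∀ s : Cp (X θ) × Cp (X θ),
        (∀ a ∈ F, s.1.1 a = (dd x).1.1 a ∧ s.2.1 a = (dd x).2.1 a) → s ∈ V) := by
    intro x
    by_cases h0 : x ∈ Z false
    · obtain ⟨F, hF⟩ := exists_basic₂ hU (hZU ⟨x, h0, rfl⟩)
      refine ⟨F, fun _ => hF, fun h1 => ?_⟩
      have : Ty.I false = Ty.I true := h0.symm.trans h1
      cases this
    · by_cases h1 : x ∈ Z true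
      · obtain ⟨F, hF⟩ := exists_basic₂ hV (hZV ⟨x, h1, rfl⟩)
        exact ⟨F, fun h => absurd h h0, fun _ => hF⟩
      · exact ⟨∅, fun h => absurd h h0, fun h => absurd h h1⟩
  choose F hF0 hF1 using hex
  -- sizes and exceptional sets
  let sz : X θ → ℕ := fun a => match a with
    | X.q q => size q
    | X.P _ _ => 0
  let n : IBr θ → ℕ := fun x => (F x).sup sz
  let Ex : IBr θ → Set (IBr θ) := fun x => {z | ∃ i, X.P z i ∈ F x}
  have hEx : ∀ x, (Ex x).Finite := by
    intro x
    let pt : X θ → Option (IBr θ) := fun a => match a with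
      | X.q _ => none
      | X.P z _ => some z
    have h1 : ((F x).image pt : Set (Option (IBr θ))).Finite := Finset.finite_toSet _
    refine Set.Finite.of_finite_image (f := some) (h1.subset ?_) (fun a _ b _ h => Option.some_injective _ h)
    rintro _ ⟨z, ⟨i, hi⟩, rfl⟩
    simp only [Finset.coe_image, Set.mem_image, Finset.mem_coe]
    exact ⟨_, hi, rfl⟩
  have hZunc : ∀ (b : Bool) (t : List Bool), ¬ {x : IBr θ | x ∈ Z b ∧ Pre t x.1}.Countable := by
    intro b t hc
    apply hθ b t
    refine (hc.image Subtype.val).mono ?_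
    rintro v ⟨h1, h2⟩
    exact ⟨⟨v, b, h2⟩, ⟨h2, h1⟩, rfl⟩
  have hZ0 : ¬ (Z false).Countable := by
    intro hc
    apply hZunc false []
    exact hc.mono fun x hx => hx.1
  obtain ⟨⟨k, t⟩, hkt⟩ := exists_uncountable_fiber hZ0 (fun x => (n x, pf x.1 (n x)))
  have hinf : {a | a ∈ Z false ∧ (n a, pf a.1 (n a)) = (k, t)}.Infinite := fun h =>
    hkt h.countable
  set e := hinf.natEmbedding with he
  have hy : ∃ y, (y ∈ Z true ∧ Pre t y.1) ∧ ∀ i : ℕ, y ∉ Ex (e i).1 := by
    by_contra hcon
    push Not at hcon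
    apply hZunc true t
    refine (countable_iUnion fun i : ℕ => (hEx (e i).1).countable).mono ?_
    intro y hy
    obtain ⟨i, hi⟩ := hcon y hy
    exact mem_iUnion.2 ⟨i, hi⟩
  obtain ⟨y, ⟨hyZ, hyt⟩, hyE⟩ := hy
  have hx : ∃ i : ℕ, (e i).1 ∉ Ex y := by
    by_contra hcon
    push Not at hcon
    have hinj : Function.Injective (fun i : ℕ => (e i).1) := fun i j hij =>
      e.injective (Subtype.ext hij)
    exact Set.infinite_range_of_injective hinj ((hEx y).subset (by
      rintro _ ⟨i, rfl⟩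
      exact hcon i))
  obtain ⟨i, hi⟩ := hx
  set x := (e i).1 with hxdef
  have hxZ : x ∈ Z false := (e i).2.1
  have hxk : n x = k := (Prod.ext_iff.1 (e i).2.2).1
  have hxt : pf x.1 (n x) = t := (Prod.ext_iff.1 (e i).2.2).2
  have hpf : pf x.1 k = pf y.1 k := by
    rw [hxk] at hxt
    have h1 : t.length = k := by rw [← hxt, pf_length]
    unfold Pre at hyt
    rw [h1] at hyt
    rw [hxt, hyt]
  -- the two points agree on the intersection
  have hagree : ∀ a ∈ F x, a ∈ F y → ∀ j, (dl x j).1 a = (dl y j).1 a := by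
    intro a hax hay j
    rcases a with q | ⟨z, l⟩
    · have h1 : size q ≤ n x := Finset.le_sup (f := sz) hax
      rw [Bool.eq_iff_iff, dl_q, dl_q, hq_congr hpf (by omega)]
    · have h1 : z ≠ x := by
        rintro rfl
        exact hi ⟨l, hay⟩
      have h2 : z ≠ y := by
        rintro rfl
        exact hyE i ⟨l, hax⟩
      rw [Bool.eq_iff_iff, dl_P, dl_P]
      simp [h1, h2]
  -- interpolate
  have hint : ∀ j, ∃ f : Cp (X θ), (∀ a ∈ F x, f.1 a = (dl x j).1 a) ∧
      ∀ a ∈ F y, f.1 a = (dl y j).1 a := by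
    intro j
    obtain ⟨f, hf⟩ := exists_interp (F x ∪ F y)
      (fun a => if a ∈ F x then (dl x j).1 a else (dl y j).1 a)
    refine ⟨f, fun a ha => ?_, fun a ha => ?_⟩
    · rw [hf a (Finset.mem_union_left _ ha), if_pos ha]
    · rw [hf a (Finset.mem_union_right _ ha)]
      by_cases hax : a ∈ F x
      · rw [if_pos hax, hagree a hax ha]
      · rw [if_neg hax]
  obtain ⟨f0, h00, h01⟩ := hint false
  obtain ⟨f1, h10, h11⟩ := hint true
  have hmU : (f0, f1) ∈ U := hF0 x hxZ (f0, f1) fun a ha => ⟨h00 a ha, h10 a ha⟩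
  have hmV : (f0, f1) ∈ V := hF1 y hyZ (f0, f1) fun a ha => ⟨h01 a ha, h11 a ha⟩
  exact Set.disjoint_left.1 hUV hmU hmV

end Pool.Agent.D76130
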