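import Mathlib

/-!
# A splitting scheme for uncountable sets of sequences of reals

`Cd` is the set of sequences of elements of Baire space.  For an uncountable `T ⊆ Cd` we build
a binary scheme of members of `T` all of whose branches converge, such that two branches agree
in the `j`-th column only when this column is locally constant on `T`.
-/

namespace Pool.Agent.D76130

open Set

/-- Codes: sequences of elements of Baire space. -/
abbrev Cd := ℕ → ℕ → ℕ

/-- Agreement on the square `[0,n)²`. -/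
def agr (n : ℕ) (c c' : Cd) : Prop := ∀ j < n, ∀ i < n, c j i = c' j i

theorem agr.symm {n : ℕ} {c c' : Cd} (h : agr n c c') : agr n c' c :=
  fun j hj i hi => (h j hj i hi).symm

theorem agr.trans {n : ℕ} {c c' c'' : Cd} (h : agr n c c') (h' : agr n c' c'') : agr n c c'' :=
  fun j hj i hi => (h j hj i hi).trans (h' j hj i hi)

theorem agr.mono {n m : ℕ} {c c' : Cd} (h : agr n c c') (hm : m ≤ n) : agr m c c' :=
  fun j hj i hi => h j (by omega) i (by omega)

theorem agr_refl (n : ℕ) (c : Cd) : agr n c c := fun _ _ _ _ => rfl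

/-- An uncountable set contains a nonempty dense-in-itself subset. -/
theorem exists_condensed (T : Set Cd) (hT : ¬ T.Countable) :
    ∃ T' ⊆ T, T'.Nonempty ∧ ∀ c ∈ T', ∀ n, ∃ c' ∈ T', c' ≠ c ∧ agr n c c' := by
  classical
  set bad : Set Cd := {c | ∃ n, {c' | c' ∈ T ∧ agr n c c'}.Countable} with hbad
  have hcount : (T ∩ bad).Countable := by
    have hsub : T ∩ bad ⊆ ⋃ n : ℕ, ⋃ a : Fin n → Fin n → ℕ,
        {c' | c' ∈ T ∧ (∀ j i : Fin n, c' j i = a j i) ∧
          {c'' | c'' ∈ T ∧ ∀ j i : Fin n, c'' j i = a j i}.Countable} := by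
      rintro c ⟨hcT, n, hn⟩
      refine mem_iUnion.2 ⟨n, mem_iUnion.2 ⟨fun j i => c j i, hcT, fun _ _ => rfl, ?_⟩⟩
      refine hn.mono ?_
      rintro c'' ⟨h1, h2⟩
      exact ⟨h1, fun j hj i hi => (h2 ⟨j, hj⟩ ⟨i, hi⟩).symm⟩
    refine Set.Countable.mono hsub ?_
    refine countable_iUnion fun n => countable_iUnion fun a => ?_
    by_cases h : {c'' | c'' ∈ T ∧ ∀ j i : Fin n, c'' j i = a j i}.Countable
    · refine h.mono ?_
      rintro c ⟨h1, h2, -⟩
      exact ⟨h1, h2⟩
    · convert Set.countable_empty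
      ext c
      simp only [Set.mem_ofPred_eq, mem_empty_iff_false, iff_false, not_and]
      intro _ _ h'
      exact h h'
  have hunc : ∀ c ∈ T \ bad, ∀ n, ¬ {c' | c' ∈ T \ bad ∧ agr n c c'}.Countable := by
    rintro c ⟨hcT, hcb⟩ n hn
    apply hcb
    refine ⟨n, (hn.union hcount).mono ?_⟩
    rintro c' ⟨h1, h2⟩
    by_cases hb : c' ∈ bad
    · exact Or.inr ⟨h1, hb⟩
    · exact Or.inl ⟨⟨h1, hb⟩, h2⟩
  refine ⟨T \ bad, sdiff_subset, ?_, ?_⟩
  · by_contra hne
    rw [not_nonempty_iff_eq_empty] at hne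
    apply hT
    refine hcount.mono ?_
    intro c hc
    refine ⟨hc, ?_⟩
    by_contra hb
    have : c ∈ T \ bad := ⟨hc, hb⟩
    rw [hne] at this
    exact this
  · intro c hc n
    by_contra hcon
    push Not at hcon
    apply hunc c hc n
    refine (Set.countable_singleton c).mono ?_
    rintro c' ⟨h1, h2⟩
    by_contra hne
    exact hcon c' h1 hne h2

/-- Column `j` is constant on the part of `T` agreeing with `c` up to `n`. -/
def Cst (T : Set Cd) (c : Cd) (n j : ℕ) : Prop := ∀ c' ∈ T, agr n c c' → c' j = c j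

theorem Cst.ext {T : Set Cd} {c c' : Cd} {n n' j : ℕ} (h : Cst T c n j) (hc' : c' ∈ T)
    (ha : agr n c c') (hn : n ≤ n') : Cst T c' n' j := by
  intro c'' h1 h2
  rw [h c' hc' ha]
  exact h c'' h1 (ha.trans (h2.mono hn))

theorem exists_max (T : Set Cd) (c : Cd) (hc : c ∈ T) (n m : ℕ) :
    ∃ c' ∈ T, ∃ n' ≥ n, agr n c c' ∧ ∀ j < m, ∀ c'' ∈ T, ∀ n'' ≥ n', agr n' c' c'' →
      Cst T c'' n'' j → Cst T c' n' j := by
  induction m with
  | zero => exact ⟨c, hc, n, le_refl _, agr_refl _ _, fun j hj => by omega⟩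
  | succ m ih =>
    obtain ⟨c', hc', n', hn', ha, hmax⟩ := ih
    by_cases hex : ∃ c'' ∈ T, ∃ n'' ≥ n', agr n' c' c'' ∧ Cst T c'' n'' m
    · obtain ⟨c'', hc'', n'', hn'', ha', hcst⟩ := hex
      refine ⟨c'', hc'', n'', by omega, ha.trans (ha'.mono hn'), ?_⟩
      intro j hj d hd k hk hak hcs
      rcases Nat.lt_succ_iff_lt_or_eq.1 hj with h | h
      · exact (hmax j h d hd k (by omega) (ha'.trans (hak.mono hn'')) hcs).ext hc'' ha' hn''
      · subst h
        exact hcst
    · refine ⟨c', hc', n', hn', ha, ?_⟩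
      intro j hj d hd k hk hak hcs
      rcases Nat.lt_succ_iff_lt_or_eq.1 hj with h | h
      · exact hmax j h d hd k hk hak hcs
      · subst h
        exact absurd ⟨d, hd, k, hk, hak, hcs⟩ hex

theorem exists_split (T : Set Cd)
    (c : Cd) (hc : c ∈ T) (n m : ℕ)
    (hmax : ∀ j < m, ∀ c'' ∈ T, ∀ n'' ≥ n, agr n c c'' → Cst T c'' n'' j → Cst T c n j) :
    ∃ c' ∈ T, ∃ N ≥ n, agr n c c' ∧ ∀ j < m, Cst T c n j ∨ (j < N ∧ ∃ i < N, c j i ≠ c' j i) := by
  induction m with
  | zero => exact ⟨c, hc, n, le_refl _, agr_refl _ _, fun j hj => by omega⟩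
  | succ m ih =>
    obtain ⟨c', hc', N, hN, ha, hs⟩ := ih fun j hj => hmax j (by omega)
    by_cases hcst : Cst T c n m
    · refine ⟨c', hc', N, hN, ha, ?_⟩
      intro j hj
      rcases Nat.lt_succ_iff_lt_or_eq.1 hj with h | h
      · exact hs j h
      · subst h
        exact Or.inl hcst
    · have hex : ∃ d ∈ T, agr N c' d ∧ d m ≠ c m := by
        by_cases heq : c' m = c m
        · have : ¬ Cst T c' N m := fun h => hcst (hmax m (by omega) c' hc' N hN ha h)
          unfold Cst at this
          push Not at this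
          obtain ⟨d, hd, had, hne⟩ := this
          exact ⟨d, hd, had, by rwa [heq] at hne⟩
        · exact ⟨c', hc', agr_refl _ _, heq⟩
      obtain ⟨d, hd, had, hne⟩ := hex
      obtain ⟨i, hi⟩ : ∃ i, c m i ≠ d m i := by
        by_contra hcon
        push Not at hcon
        exact hne (funext fun i => (hcon i).symm)
      refine ⟨d, hd, max N (max m i + 1), by omega, ha.trans (had.mono hN), ?_⟩
      intro j hj
      rcases Nat.lt_succ_iff_lt_or_eq.1 hj with h | h
      · rcases hs j h with h' | ⟨h1, i', h2, h3⟩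
        · exact Or.inl h'
        · refine Or.inr ⟨by omega, i', by omega, ?_⟩
          rw [← had j h1 i' h2]
          exact h3
      · subst h
        exact Or.inr ⟨by omega, i, by omega, hi⟩

/-- One step of the scheme. -/
theorem exists_step (T : Set Cd)
    (c : Cd) (hc : c ∈ T) (n m : ℕ) :
    ∃ c0 ∈ T, ∃ c1 ∈ T, ∃ N ≥ max n (m + 1), agr n c c0 ∧ agr n c c1 ∧
      ∀ j < m, (Cst T c0 N j ∧ Cst T c1 N j) ∨ (j < N ∧ ∃ i < N, c0 j i ≠ c1 j i) := by
  obtain ⟨c0, h0, n', hn', ha0, hmax⟩ := exists_max T c hc n m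
  obtain ⟨c1, h1, N, hN, ha1, hs⟩ := exists_split T c0 h0 n' m hmax
  refine ⟨c0, h0, c1, h1, max N (m + 1), by omega, ha0, ha0.trans (ha1.mono hn'), ?_⟩
  intro j hj
  rcases hs j hj with h | ⟨h2, i, h3, h4⟩
  · exact Or.inl ⟨h.ext h0 (agr_refl _ _) (by omega), h.ext h1 ha1 (by omega)⟩
  · exact Or.inr ⟨by omega, i, by omega, h4⟩

/-- Reversed prefixes. -/
def rp (β : ℕ → Bool) : ℕ → List Bool
  | 0 => []
  | n + 1 => β n :: rp β n

theorem rp_length (β : ℕ → Bool) (n : ℕ) : (rp β n).length = n := by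
  induction n with
  | zero => rfl
  | succ n ih => simp [rp, ih]

theorem rp_eq_iff (β β' : ℕ → Bool) (n : ℕ) : rp β n = rp β' n ↔ ∀ i < n, β i = β' i := by
  induction n with
  | zero => simp [rp]
  | succ n ih =>
    simp only [rp, List.cons.injEq, ih]
    constructor
    · rintro ⟨h1, h2⟩ i hi
      rcases Nat.lt_succ_iff_lt_or_eq.1 hi with h | h
      · exact h2 i h
      · rw [h, h1]
    · intro h
      exact ⟨h n (by omega), fun i hi => h i (by omega)⟩

/-- The limit of a scheme along a branch. -/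
def ev (S : List Bool → Cd) (β : ℕ → Bool) : Cd := fun j i => S (rp β (max j i + 1)) j i

/-- Recursion along lists. -/
def nodeOf {α : Type*} (root : α) (step : α → ℕ → Bool → α) : List Bool → α
  | [] => root
  | b :: l => step (nodeOf root step l) l.length b

/-- The scheme lemma. -/
theorem exists_scheme (T : Set Cd) (hT : ¬ T.Countable) :
    ∃ S : List Bool → Cd, (∀ β m, ∃ c ∈ T, agr m c (ev S β)) ∧
      ∀ j β β', β ≠ β' → rp β (j + 1) = rp β' (j + 1) → ev S β j = ev S β' j →
        ∃ c ∈ T, ∃ c' ∈ T, c ≠ c' ∧ c j = ev S β j ∧ c' j = ev S β j := by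
  classical
  obtain ⟨T', hT'T, ⟨root, hroot⟩, hdense⟩ := exists_condensed T hT
  have hstep := fun (x : {c // c ∈ T'} × ℕ) (m : ℕ) =>
    exists_step T' x.1.1 x.1.2 x.2 m
  choose c0 hc0 c1 hc1 N hN ha0 ha1 hsp using hstep
  let step : ({c // c ∈ T'} × ℕ) → ℕ → Bool → ({c // c ∈ T'} × ℕ) := fun x m b =>
    (if b then ⟨c1 x m, hc1 x m⟩ else ⟨c0 x m, hc0 x m⟩, N x m)
  let node : List Bool → ({c // c ∈ T'} × ℕ) := nodeOf (⟨root, hroot⟩, 0) step
  have hnode : ∀ b l, node (b :: l) = step (node l) l.length b := fun b l => rfl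
  set S : List Bool → Cd := fun l => (node l).1.1 with hS
  -- lengths
  have hlen : ∀ l, l.length ≤ (node l).2 := by
    intro l
    cases l with
    | nil => exact Nat.zero_le _
    | cons b l =>
      rw [hnode]
      have := hN (node l) l.length
      simp only [step, List.length_cons]
      omega
  have hmono : ∀ b l, (node l).2 ≤ (node (b :: l)).2 := by
    intro b l
    rw [hnode]
    have := hN (node l) l.length
    simp only [step]
    omega
  have hagr : ∀ b l, agr (node l).2 (S l) (S (b :: l)) := by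
    intro b l
    simp only [hS, hnode]
    cases b
    · exact ha0 _ _
    · exact ha1 _ _
  have hchain : ∀ (β : ℕ → Bool) k d, agr (node (rp β k)).2 (S (rp β k)) (S (rp β (k + d))) ∧
      (node (rp β k)).2 ≤ (node (rp β (k + d))).2 := by
    intro β k d
    induction d with
    | zero => exact ⟨agr_refl _ _, le_refl _⟩
    | succ d ih =>
      refine ⟨ih.1.trans ((hagr (β (k + d)) (rp β (k + d))).mono ih.2), ih.2.trans ?_⟩
      exact hmono (β (k + d)) (rp β (k + d))
  have hev : ∀ (β : ℕ → Bool) j i k, max j i + 1 ≤ k → ev S β j i = S (rp β k) j i := by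
    intro β j i k hk
    obtain ⟨d, rfl⟩ := Nat.exists_eq_add_of_le hk
    have h1 := (hchain β (max j i + 1) d).1
    have h2 := hlen (rp β (max j i + 1))
    rw [rp_length] at h2
    exact h1 j (by omega) i (by omega)
  refine ⟨S, ?_, ?_⟩
  · intro β m
    refine ⟨S (rp β m), hT'T (node (rp β m)).1.2, ?_⟩
    intro j hj i hi
    exact (hev β j i m (by omega)).symm
  · intro j β β' hne hpre heq
    -- first difference
    have hex : ∃ k, β k ≠ β' k := by
      by_contra hcon
      push Not at hcon
      exact hne (funext hcon)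
    set k := Nat.find hex with hk
    have hk1 : β k ≠ β' k := Nat.find_spec hex
    have hk2 : ∀ i < k, β i = β' i := fun i hi => by
      have := Nat.find_min hex hi
      push Not at this
      exact this
    have hjk : j + 1 ≤ k := by
      by_contra hcon
      exact hk1 ((rp_eq_iff β β' (j + 1)).1 hpre k (by omega))
    have hrp : rp β k = rp β' k := (rp_eq_iff β β' k).2 hk2
    have hkl : (rp β k).length = k := rp_length β k
    set x := node (rp β k) with hx
    have hnβ : node (rp β (k + 1)) = step x k (β k) := by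
      show node (β k :: rp β k) = _
      rw [hnode, hkl]
    have hnβ' : node (rp β' (k + 1)) = step x k (β' k) := by
      show node (β' k :: rp β' k) = _
      rw [hnode, ← hrp, hkl]
    have hlim : ∀ γ : ℕ → Bool, ∀ j i, j < (node (rp γ (k + 1))).2 → i < (node (rp γ (k + 1))).2 →
        ev S γ j i = S (rp γ (k + 1)) j i := by
      intro γ j i hj hi
      have h1 := (hchain γ (k + 1) (max j i + 1)).1 j hj i hi
      rw [h1]
      exact hev γ j i _ (by omega)
    have key : Cst T' (S (rp β (k + 1))) (node (rp β (k + 1))).2 j := by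
      have hs := hsp x k j (by omega)
      rcases hs with ⟨h0, h1⟩ | ⟨hjN, i, hiN, hneq⟩
      · simp only [hS, hnβ]
        cases β k
        · exact h0
        · exact h1
      · exfalso
        have e1 : ev S β j i = S (rp β (k + 1)) j i := hlim β j i (by rw [hnβ]; exact hjN)
          (by rw [hnβ]; exact hiN)
        have e2 : ev S β' j i = S (rp β' (k + 1)) j i := hlim β' j i (by rw [hnβ']; exact hjN)
          (by rw [hnβ']; exact hiN)
        have e3 : S (rp β (k + 1)) j i = S (rp β' (k + 1)) j i := by rw [← e1, ← e2, heq]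
        simp only [hS, hnβ, hnβ'] at e3
        cases hb : β k <;> cases hb' : β' k
        · exact hk1 (hb.trans hb'.symm)
        · rw [hb, hb'] at e3
          exact hneq e3
        · rw [hb, hb'] at e3
          exact hneq e3.symm
        · exact hk1 (hb.trans hb'.symm)
    have hmem : S (rp β (k + 1)) ∈ T' := (node (rp β (k + 1))).1.2
    have hcol : S (rp β (k + 1)) j = ev S β j := by
      funext i
      rw [hev β j i (k + 1 + (max j i + 1)) (by omega)]
      have h1 := hchain β (k + 1) (max j i + 1)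
      have h2 := key (S (rp β (k + 1 + (max j i + 1))))
        (node (rp β (k + 1 + (max j i + 1)))).1.2 h1.1
      rw [h2]
    obtain ⟨c', hc', hne', hag⟩ := hdense _ hmem (node (rp β (k + 1))).2
    exact ⟨_, hT'T hmem, c', hT'T hc', hne'.symm, hcol, (key c' hc' hag).trans hcol⟩

end Pool.Agent.D76130
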