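import Pool.Agent.D76130.CP

/-!
# The space

Given a typing `θ` of the Cantor space we define a zero-dimensional Hausdorff space `X θ` with
underlying set `Qt ⊕ {x | θ x = I _} × Bool`, where `Qt` is countable.
-/

namespace Pool.Agent.D76130

open Set

/-- Branches of the binary tree. -/
abbrev Br := ℕ → Bool

/-- The types of branches. -/
inductive Ty
  | I (b : Bool)
  | A1
  | A2
  | B (n : ℕ)

instance : Inhabited Ty := ⟨Ty.A1⟩

instance : Countable Ty := by
  let f : Ty → ℕ × ℕ := fun t => match t with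
    | Ty.I false => (0, 0)
    | Ty.I true => (0, 1)
    | Ty.A1 => (1, 0)
    | Ty.A2 => (2, 0)
    | Ty.B n => (3, n)
  apply Function.Injective.countable (f := f)
  intro a b hab
  rcases a with (_ | _) | _ | _ | n <;> rcases b with (_ | _) | _ | _ | m <;> simp_all [f]

/-- The prefix of `v` of length `n`. -/
def pf (v : Br) (n : ℕ) : List Bool := (List.range n).map v

@[simp] theorem pf_length (v : Br) (n : ℕ) : (pf v n).length = n := by simp [pf]

theorem pf_eq_iff (v v' : Br) (n : ℕ) : pf v n = pf v' n ↔ ∀ i < n, v i = v' i := by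
  simp [pf]

theorem take_pf (v : Br) (n m : ℕ) (h : m ≤ n) : (pf v n).take m = pf v m := by
  simp [pf, ← List.map_take, List.take_range, h]

/-- `u` is an initial segment of `v`. -/
def Pre (u : List Bool) (v : Br) : Prop := pf v u.length = u

instance (u : List Bool) (v : Br) : Decidable (Pre u v) := by
  unfold Pre; infer_instance

theorem pre_pf (v : Br) (n : ℕ) : Pre (pf v n) v := by
  unfold Pre; rw [pf_length]

theorem pre_nil (v : Br) : Pre [] v := rfl

theorem Pre.left {u w : List Bool} {v : Br} (h : Pre (u ++ w) v) : Pre u v := by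
  unfold Pre at *
  have h1 := congrArg (List.take u.length) h
  rw [List.length_append, take_pf _ _ _ (by omega), List.take_left'] at h1
  · exact h1
  · rfl

/-- Two branches with a common initial segment agree up to its length. -/
theorem Pre.agree {u : List Bool} {v v' : Br} (h : Pre u v) (h' : Pre u v') {m : ℕ}
    (hm : m ≤ u.length) : pf v m = pf v' m := by
  unfold Pre at *
  rw [← take_pf v u.length m hm, ← take_pf v' u.length m hm, h, h']

/-- Distinct branches have distinct prefixes of large length. -/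
theorem exists_sep {v v' : Br} (h : v ≠ v') : ∃ M, ∀ n ≥ M, pf v n ≠ pf v' n := by
  have : ∃ i, v i ≠ v' i := by
    by_contra hcon
    push Not at hcon
    exact h (funext hcon)
  obtain ⟨i, hi⟩ := this
  refine ⟨i + 1, fun n hn heq => hi ?_⟩
  exact (pf_eq_iff v v' n).1 heq i (by omega)

theorem exists_sep_not_pre {v v' : Br} (h : v ≠ v') :
    ∃ M, ∀ u : List Bool, M ≤ u.length → Pre u v → ¬ Pre u v' := by
  obtain ⟨M, hM⟩ := exists_sep h
  exact ⟨M, fun u hu h1 h2 => hM M le_rfl (h1.agree h2 hu)⟩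

theorem exists_sep_finite {v : Br} {G : Set Br} (hG : G.Finite) :
    ∃ M, ∀ v' ∈ G, v ≠ v' → ∀ u : List Bool, M ≤ u.length → Pre u v → ¬ Pre u v' := by
  induction G, hG using Set.Finite.induction_on with
  | empty => exact ⟨0, by simp⟩
  | @insert a s _ _ ih =>
    obtain ⟨M, hM⟩ := ih
    by_cases hva : v = a
    · refine ⟨M, fun v' hv' hne => ?_⟩
      rcases hv' with rfl | hv'
      · exact absurd hva hne
      · exact hM v' hv' hne
    · obtain ⟨M', hM'⟩ := exists_sep_not_pre hva
      refine ⟨max M M', fun v' hv' hne u hu => ?_⟩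
      rcases hv' with rfl | hv'
      · exact hM' u (by omega)
      · exact hM v' hv' hne u (by omega)

/-- If `u` is an initial segment of `v`, then the longer ones are extensions of `u`. -/
theorem Pre.exists_append {u : List Bool} {v : Br} (h : Pre u v) (n : ℕ) :
    ∃ w : List Bool, w.length = n ∧ Pre (u ++ w) v := by
  refine ⟨(pf v (u.length + n)).drop u.length, by simp, ?_⟩
  have h1 : u ++ (pf v (u.length + n)).drop u.length = pf v (u.length + n) := by
    conv_lhs => rw [← h]
    rw [← take_pf v (u.length + n) u.length (by omega)]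
    simp
  rw [h1]
  exact pre_pf _ _

/-- The countable part of the space. -/
inductive Qt
  | zero
  | cen (u : List Bool)
  | r (t : List Bool)
  | s (u w : List Bool)

instance : Countable Qt := by
  let f : Qt → ℕ × List Bool × List Bool := fun t => match t with
    | Qt.zero => (0, [], [])
    | Qt.cen u => (1, u, [])
    | Qt.r t => (2, t, [])
    | Qt.s u w => (3, u, w)
  apply Function.Injective.countable (f := f)
  intro a b hab
  rcases a with _ | u | t | ⟨u, w⟩ <;> rcases b with _ | u' | t' | ⟨u', w'⟩ <;> simp_all [f]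

/-- The node below which a point of `Qt` lives. -/
def base : Qt → List Bool
  | Qt.zero => []
  | Qt.cen u => u
  | Qt.r t => t
  | Qt.s u _ => u

/-- The functions `h_v` on `Qt`, with values in `{none, some false, some true}`. -/
def hq (v : Br) : Qt → Option Bool
  | Qt.zero => none
  | Qt.cen u => if Pre u v then some false else none
  | Qt.r t => if Pre t v then some true else none
  | Qt.s u w => if Pre (u ++ w) v then some true else if Pre u v then some false else none

theorem pre_of_hq {v : Br} {q : Qt} {i : Bool} (h : hq v q = some i) : Pre (base q) v := by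
  rcases q with _ | u | t | ⟨u, w⟩
  · simp [hq] at h
  · by_cases hu : Pre u v
    · exact hu
    · simp [hq, hu] at h
  · by_cases hu : Pre t v
    · exact hu
    · simp [hq, hu] at h
  · by_cases hu : Pre u v
    · exact hu
    · have : ¬ Pre (u ++ w) v := fun h' => hu h'.left
      simp [hq, hu, this] at h

theorem hq_eq_none {v : Br} {q : Qt} (h : ¬ Pre (base q) v) : hq v q = none := by
  cases hh : hq v q with
  | none => rfl
  | some i => exact absurd (pre_of_hq hh) h

variable (θ : Br → Ty)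

/-- The branches of a type `I b`. -/
abbrev IBr : Type := {x : Br // ∃ b, θ x = Ty.I b}

/-- The underlying set of the space. -/
inductive X : Type
  | q (a : Qt)
  | P (x : IBr θ) (i : Bool)

/-- The values allowed near the point `zero`. -/
def Allowed (v : Br) (q : Qt) : Prop :=
  (θ v = Ty.A1 ∧ hq v q = some false) ∨ (θ v = Ty.A2 ∧ hq v q = some true)

/-- The neighbourhood condition at the point `zero`. -/
def At0 (U : Set (X θ)) : Prop :=
  ∃ M : ℕ, ∃ G : Set Br, G.Finite ∧
    (∀ q : Qt, M ≤ (base q).length → (∀ v ∈ G, Pre (base q) v → Allowed θ v q) →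
      X.q q ∈ U) ∧
    ∀ (x : IBr θ) (i : Bool), x.1 ∉ G → X.P x i ∈ U

/-- The neighbourhood condition at the point `cen u`. -/
def AtC (U : Set (X θ)) (u : List Bool) : Prop :=
  ∃ M : ℕ, ∃ G : Set Br, G.Finite ∧ (∀ g ∈ G, θ g ≠ Ty.B u.length) ∧
    ∀ w : List Bool, M ≤ w.length → (∀ g ∈ G, ¬ Pre (u ++ w) g) →
      X.q (Qt.s u w) ∈ U

/-- The neighbourhood condition at the points `(x, i)`. -/
def AtP (U : Set (X θ)) (x : IBr θ) (i : Bool) : Prop :=
  ∃ M : ℕ, ∀ q : Qt, M ≤ (base q).length → hq x.1 q = some i → X.q q ∈ U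

/-- The neighbourhood conditions. -/
def OpenAt (U : Set (X θ)) : X θ → Prop
  | X.q Qt.zero => At0 θ U
  | X.q (Qt.cen u) => AtC θ U u
  | X.q (Qt.r _) => True
  | X.q (Qt.s _ _) => True
  | X.P x i => AtP θ U x i

variable {θ}

theorem OpenAt.mono {U V : Set (X θ)} (h : U ⊆ V) {a : X θ} (ha : OpenAt θ U a) :
    OpenAt θ V a := by
  rcases a with (_ | u | t | ⟨u, w⟩) | ⟨x, i⟩
  · obtain ⟨M, G, hG, h1, h2⟩ := ha
    exact ⟨M, G, hG, fun q hq hq' => h (h1 q hq hq'), fun x i hx => h (h2 x i hx)⟩
  · obtain ⟨M, G, hG, h1, h2⟩ := ha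
    exact ⟨M, G, hG, h1, fun w hw hw' => h (h2 w hw hw')⟩
  · trivial
  · trivial
  · obtain ⟨M, h1⟩ := ha
    exact ⟨M, fun q hq hq' => h (h1 q hq hq')⟩

theorem OpenAt.inter {U V : Set (X θ)} {a : X θ} (ha : OpenAt θ U a) (hb : OpenAt θ V a) :
    OpenAt θ (U ∩ V) a := by
  rcases a with (_ | u | t | ⟨u, w⟩) | ⟨x, i⟩
  · obtain ⟨M, G, hG, h1, h2⟩ := ha
    obtain ⟨M', G', hG', h1', h2'⟩ := hb
    refine ⟨max M M', G ∪ G', hG.union hG', fun q hq hq' => ⟨h1 q (by omega) ?_,
      h1' q (by omega) ?_⟩, fun x i hx => ⟨h2 x i ?_, h2' x i ?_⟩⟩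
    · exact fun v hv => hq' v (Or.inl hv)
    · exact fun v hv => hq' v (Or.inr hv)
    · exact fun h => hx (Or.inl h)
    · exact fun h => hx (Or.inr h)
  · obtain ⟨M, G, hG, h1, h2⟩ := ha
    obtain ⟨M', G', hG', h1', h2'⟩ := hb
    refine ⟨max M M', G ∪ G', hG.union hG', ?_, fun w hw hw' => ⟨h2 w (by omega) ?_,
      h2' w (by omega) ?_⟩⟩
    · rintro g (hg | hg)
      · exact h1 g hg
      · exact h1' g hg
    · exact fun g hg => hw' g (Or.inl hg)
    · exact fun g hg => hw' g (Or.inr hg)
  · trivial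
  · trivial
  · obtain ⟨M, h1⟩ := ha
    obtain ⟨M', h1'⟩ := hb
    exact ⟨max M M', fun q hq hq' => ⟨h1 q (by omega) hq', h1' q (by omega) hq'⟩⟩

theorem openAt_univ (a : X θ) : OpenAt θ univ a := by
  rcases a with (_ | u | t | ⟨u, w⟩) | ⟨x, i⟩
  · exact ⟨0, ∅, finite_empty, fun _ _ _ => mem_univ _, fun _ _ _ => mem_univ _⟩
  · exact ⟨0, ∅, finite_empty, by simp, fun _ _ _ => mem_univ _⟩
  · trivial
  · trivial
  · exact ⟨0, fun _ _ _ => mem_univ _⟩

instance : TopologicalSpace (X θ) where
  IsOpen U := ∀ a ∈ U, OpenAt θ U a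
  isOpen_univ := fun a _ => openAt_univ a
  isOpen_inter := fun U V hU hV a ha => (hU a ha.1).inter (hV a ha.2)
  isOpen_sUnion := fun S hS a ha => by
    obtain ⟨U, hU, haU⟩ := ha
    exact (hS U hU a haU).mono (subset_sUnion_of_mem hU)

theorem isOpen_iff_openAt {U : Set (X θ)} : IsOpen U ↔ ∀ a ∈ U, OpenAt θ U a := Iff.rfl

theorem isClopen_of_openAt {N : Set (X θ)} (h : ∀ a, OpenAt θ {a' | a' ∈ N ↔ a ∈ N} a) :
    IsClopen N := by
  constructor
  · rw [← isOpen_compl_iff, isOpen_iff_openAt]
    intro a ha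
    refine (h a).mono ?_
    intro a' ha' hN
    exact ha (ha'.1 hN)
  · rw [isOpen_iff_openAt]
    intro a ha
    refine (h a).mono ?_
    intro a' ha'
    exact ha'.2 ha

theorem continuous_iff_openAt {f : X θ → Bool} :
    Continuous f ↔ ∀ a, OpenAt θ {a' | f a' = f a} a := by
  constructor
  · intro hf a
    have : IsOpen (f ⁻¹' {f a}) := (isOpen_discrete _).preimage hf
    exact (isOpen_iff_openAt.1 this) a rfl
  · intro h
    rw [continuous_def]
    intro s _
    rw [isOpen_iff_openAt]
    intro a ha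
    refine (h a).mono ?_
    intro a' ha'
    show f a' ∈ s
    rw [show f a' = f a from ha']
    exact ha

/-- The basic neighbourhood of `(x, i)`. -/
def NP (x : IBr θ) (i : Bool) (M : ℕ) : Set (X θ) :=
  {a | a = X.P x i ∨ ∃ q, a = X.q q ∧ M ≤ (base q).length ∧ hq x.1 q = some i}

theorem mem_NP_inl {x : IBr θ} {i : Bool} {M : ℕ} {q : Qt} :
    X.q q ∈ NP x i M ↔ M ≤ (base q).length ∧ hq x.1 q = some i := by
  constructor
  · rintro (h | ⟨q', h1, h2⟩)
    · cases h
    · cases h1
      exact h2
  · intro h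
    exact Or.inr ⟨q, rfl, h⟩

theorem mem_NP_inr {x y : IBr θ} {i j : Bool} {M : ℕ} :
    X.P y j ∈ NP x i M ↔ y = x ∧ j = i := by
  constructor
  · rintro (h | ⟨q', h1, h2⟩)
    · cases h
      exact ⟨rfl, rfl⟩
    · cases h1
  · rintro ⟨rfl, rfl⟩
    exact Or.inl rfl

theorem isClopen_NP (x : IBr θ) (i : Bool) (M : ℕ) : IsClopen (NP x i M) := by
  apply isClopen_of_openAt
  rintro ((_ | u | t | ⟨u, w⟩) | ⟨y, j⟩)
  · refine ⟨0, {x.1}, finite_singleton _, ?_, ?_⟩
    · intro q _ hal
      simp only [Set.mem_ofPred_eq, mem_NP_inl]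
      have : hq x.1 q = none := by
        apply hq_eq_none
        intro hp
        obtain ⟨b, hb⟩ := x.2
        rcases hal x.1 rfl hp with ⟨h1, _⟩ | ⟨h1, _⟩ <;> rw [hb] at h1 <;> cases h1
      rw [this]
      simp [hq]
    · intro y j hy
      simp only [Set.mem_ofPred_eq, mem_NP_inl, mem_NP_inr, hq]
      constructor
      · rintro ⟨rfl, _⟩
        exact absurd rfl hy
      · rintro ⟨_, h⟩
        cases h
  · refine ⟨0, {x.1}, finite_singleton _, ?_, ?_⟩
    · rintro g rfl
      obtain ⟨b, hb⟩ := x.2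
      rw [hb]
      intro h
      cases h
    · intro w _ hw
      have hw' := hw x.1 rfl
      simp only [Set.mem_ofPred_eq, mem_NP_inl, hq, base, hw', if_false]
  · trivial
  · trivial
  · by_cases hxy : y = x
    · subst hxy
      refine ⟨M, fun q hqM hqj => ?_⟩
      simp only [Set.mem_ofPred_eq, mem_NP_inl, mem_NP_inr, hqj]
      simp [hqM]
    · have hne : y.1 ≠ x.1 := fun h => hxy (Subtype.ext h)
      obtain ⟨K, hK⟩ := exists_sep_not_pre hne
      refine ⟨K, fun q hqK hqj => ?_⟩
      have : hq x.1 q = none := hq_eq_none (hK _ hqK (pre_of_hq hqj))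
      simp only [Set.mem_ofPred_eq, mem_NP_inl, mem_NP_inr, this]
      simp [hxy]

/-- The basic neighbourhood of `cen u`. -/
def NC (θ : Br → Ty) (u : List Bool) (M : ℕ) (G : Set Br) : Set (X θ) :=
  {a | a = X.q (Qt.cen u) ∨
    ∃ w, a = X.q (Qt.s u w) ∧ M ≤ w.length ∧ ∀ g ∈ G, ¬ Pre (u ++ w) g}

theorem isClopen_NC (u : List Bool) (M : ℕ) (G : Set Br) (hG : G.Finite)
    (hGu : ∀ g ∈ G, θ g ≠ Ty.B u.length) : IsClopen (NC θ u M G) := by
  apply isClopen_of_openAt
  rintro ((_ | u' | t | ⟨u', w⟩) | ⟨y, j⟩)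
  · refine ⟨u.length + 1, ∅, finite_empty, ?_, ?_⟩
    · intro q hq' _
      constructor
      · rintro (h | ⟨w, h, _⟩)
        · cases h
          simp only [base] at hq'
          omega
        · cases h
          simp only [base] at hq'
          omega
      · rintro (h | ⟨w, h, _⟩) <;> cases h
    · intro x i _
      constructor
      · rintro (h | ⟨w, h, _⟩) <;> cases h
      · rintro (h | ⟨w, h, _⟩) <;> cases h
  · by_cases hu : u' = u
    · subst hu
      refine ⟨M, G, hG, hGu, fun w hw hw' => ?_⟩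
      constructor
      · intro _
        exact Or.inl rfl
      · intro _
        exact Or.inr ⟨w, rfl, hw, hw'⟩
    · refine ⟨0, ∅, finite_empty, by simp, fun w hw hw' => ?_⟩
      constructor
      · rintro (h | ⟨w, h, _⟩)
        · cases h
        · cases h
          exact absurd rfl hu
      · rintro (h | ⟨w, h, _⟩)
        · cases h
          exact absurd rfl hu
        · cases h
  · trivial
  · trivial
  · refine ⟨u.length + 1, ?_⟩
    intro q hq' _
    constructor
    · rintro (h | ⟨w, h, _⟩)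
      · cases h
        simp only [base] at hq'
        omega
      · cases h
        simp only [base] at hq'
        omega
    · rintro (h | ⟨w, h, _⟩) <;> cases h

/-- The basic neighbourhood of `zero`. -/
def N0 (θ : Br → Ty) (M : ℕ) (G : Set Br) : Set (X θ) :=
  {a | a = X.q Qt.zero ∨
    (∃ q, a = X.q q ∧ M ≤ (base q).length ∧ ∀ v ∈ G, Pre (base q) v → Allowed θ v q) ∨
    ∃ x : IBr θ, ∃ i, a = X.P x i ∧ x.1 ∉ G}

theorem mem_N0_inl {M : ℕ} {G : Set Br} {q : Qt} (h : q ≠ Qt.zero) :
    X.q q ∈ N0 θ M G ↔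
      M ≤ (base q).length ∧ ∀ v ∈ G, Pre (base q) v → Allowed θ v q := by
  constructor
  · rintro (h' | ⟨q', h', h''⟩ | ⟨x, i, h', _⟩)
    · cases h'
      exact absurd rfl h
    · cases h'
      exact h''
    · cases h'
  · intro h'
    exact Or.inr (Or.inl ⟨q, rfl, h'⟩)

theorem mem_N0_inr {M : ℕ} {G : Set Br} {x : IBr θ} {i : Bool} :
    X.P x i ∈ N0 θ M G ↔ x.1 ∉ G := by
  constructor
  · rintro (h' | ⟨q', h', h''⟩ | ⟨x, i, h', h''⟩)
    · cases h'
    · cases h'
    · cases h'
      exact h''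
  · intro h'
    exact Or.inr (Or.inr ⟨x, i, rfl, h'⟩)

theorem isClopen_N0 (M : ℕ) (G : Set Br) (hG : G.Finite) : IsClopen (N0 θ M G) := by
  apply isClopen_of_openAt
  rintro ((_ | u | t | ⟨u, w⟩) | ⟨y, j⟩)
  · refine ⟨M, G, hG, ?_, ?_⟩
    · intro q h1 h2
      constructor
      · intro _
        exact Or.inl rfl
      · intro _
        exact Or.inr (Or.inl ⟨q, rfl, h1, h2⟩)
    · intro x i hx
      constructor
      · intro _
        exact Or.inl rfl
      · intro _
        exact Or.inr (Or.inr ⟨x, i, rfl, hx⟩)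
  · refine ⟨0, {v ∈ G | θ v = Ty.A1 ∨ θ v = Ty.A2}, hG.subset (sep_subset _ _), ?_, ?_⟩
    · rintro g ⟨_, h | h⟩ <;> rw [h] <;> intro h' <;> cases h'
    · intro w _ hw
      simp only [Set.mem_ofPred_eq]
      rw [mem_N0_inl (by simp), mem_N0_inl (by simp)]
      simp only [base]
      refine and_congr_right fun _ => ?_
      refine forall_congr' fun v => ?_
      refine imp_congr_right fun hv => ?_
      refine imp_congr_right fun hp => ?_
      simp only [Allowed, hq, hp, if_true]
      by_cases h1 : θ v = Ty.A1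
      · have := hw v ⟨hv, Or.inl h1⟩
        simp [h1, this]
      · by_cases h2 : θ v = Ty.A2
        · have := hw v ⟨hv, Or.inr h2⟩
          simp [h2, this]
        · simp [h1, h2]
  · trivial
  · trivial
  · by_cases hy : y.1 ∈ G
    · refine ⟨1, fun q hq1 hqj => ?_⟩
      simp only [Set.mem_ofPred_eq]
      rw [mem_N0_inr, mem_N0_inl (by rintro rfl; simp [base] at hq1)]
      simp only [hy, not_true_eq_false, iff_false, not_and, not_forall]
      intro _
      refine ⟨y.1, hy, pre_of_hq hqj, ?_⟩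
      obtain ⟨b, hb⟩ := y.2
      rintro (⟨h1, _⟩ | ⟨h1, _⟩) <;> rw [hb] at h1 <;> cases h1
    · obtain ⟨K, hK⟩ := exists_sep_finite (v := y.1) hG
      refine ⟨max M (max K 1), fun q hq1 hqj => ?_⟩
      simp only [Set.mem_ofPred_eq]
      rw [mem_N0_inr, mem_N0_inl (by rintro rfl; simp [base] at hq1)]
      simp only [hy, not_false_eq_true, iff_true]
      refine ⟨by omega, fun v hv hp => ?_⟩
      exact absurd hp (hK v hv (fun h => hy (h ▸ hv)) _ (by omega) (pre_of_hq hqj))

theorem exists_clopen {U : Set (X θ)} (hU : IsOpen U) {a : X θ} (ha : a ∈ U) :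
    ∃ N, IsClopen N ∧ a ∈ N ∧ N ⊆ U := by
  have hUa := isOpen_iff_openAt.1 hU a ha
  have hsing : ∀ q : Qt, (∀ u, q ≠ Qt.cen u) → q ≠ Qt.zero →
      IsClopen ({X.q q} : Set (X θ)) := by
    intro q h1 h2
    apply isClopen_of_openAt
    rintro ((_ | u | t | ⟨u, w⟩) | ⟨y, j⟩)
    · refine ⟨(base q).length + 1, ∅, finite_empty, ?_, ?_⟩
      · intro q' hq' _
        constructor
        · intro h
          cases h
          omega
        · intro h
          cases h
          exact absurd rfl h2
      · intro x i _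
        constructor
        · intro h
          cases h
        · intro h
          cases h
          exact absurd rfl h2
    · refine ⟨(match q with | Qt.s u' w' => w'.length + 1 | _ => 0), ∅, finite_empty, by simp, ?_⟩
      intro w hw _
      constructor
      · intro h
        cases h
        simp at hw
      · intro h
        cases h
        exact absurd rfl (h1 u)
    · trivial
    · trivial
    · refine ⟨(base q).length + 1, fun q' hq' _ => ?_⟩
      constructor
      · intro h
        cases h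
        omega
      · intro h
        cases h
  rcases a with (_ | u | t | ⟨u, w⟩) | ⟨x, i⟩
  · obtain ⟨M, G, hG, h1, h2⟩ := hUa
    refine ⟨N0 θ M G, isClopen_N0 M G hG, Or.inl rfl, ?_⟩
    rintro a (rfl | ⟨q, rfl, h3, h4⟩ | ⟨x, i, rfl, h3⟩)
    · exact ha
    · exact h1 q h3 h4
    · exact h2 x i h3
  · obtain ⟨M, G, hG, h1, h2⟩ := hUa
    refine ⟨NC θ u M G, isClopen_NC u M G hG h1, Or.inl rfl, ?_⟩
    rintro a (rfl | ⟨w, rfl, h3, h4⟩)
    · exact ha
    · exact h2 w h3 h4
  · exact ⟨_, hsing (Qt.r t) (by simp) (by simp), rfl, by rintro a rfl; exact ha⟩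
  · exact ⟨_, hsing (Qt.s u w) (by simp) (by simp), rfl, by rintro a rfl; exact ha⟩
  · obtain ⟨M, h1⟩ := hUa
    refine ⟨NP x i M, isClopen_NP x i M, Or.inl rfl, ?_⟩
    rintro a (rfl | ⟨q, rfl, h3, h4⟩)
    · exact ha
    · exact h1 q h3 h4

theorem isOpen_compl_point (b : X θ) : IsOpen ({b}ᶜ : Set (X θ)) := by
  rw [isOpen_iff_openAt]
  intro a ha
  rcases a with (_ | u | t | ⟨u, w⟩) | ⟨x, i⟩
  · rcases b with q | ⟨y, j⟩
    · refine ⟨(base q).length + 1, ∅, finite_empty, ?_, ?_⟩
      · intro q' hq' _ h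
        cases h
        omega
      · intro x i _ h
        cases h
    · refine ⟨0, {y.1}, finite_singleton _, ?_, ?_⟩
      · intro q' hq' _ h
        cases h
      · intro x i hx h
        cases h
        exact hx rfl
  · refine ⟨(match b with | X.q (Qt.s u' w') => w'.length + 1 | _ => 0), ∅, finite_empty,
      by simp, ?_⟩
    intro w hw _ h
    cases h
    simp at hw
  · trivial
  · trivial
  · refine ⟨(match b with | X.q q => (base q).length + 1 | _ => 0), ?_⟩
    intro q hq _ h
    cases h
    simp at hq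

theorem exists_clopen_sep {a b : X θ} (h : a ≠ b) : ∃ N, IsClopen N ∧ a ∈ N ∧ b ∉ N := by
  obtain ⟨N, h1, h2, h3⟩ := exists_clopen (isOpen_compl_point b) (a := a) h
  exact ⟨N, h1, h2, fun hb => h3 hb rfl⟩

instance : T2Space (X θ) := by
  refine ⟨fun a b hab => ?_⟩
  obtain ⟨N, h1, h2, h3⟩ := exists_clopen_sep hab
  exact ⟨N, Nᶜ, h1.2, h1.compl.2, h2, h3, disjoint_compl_right⟩

theorem isTopologicalBasis_clopen :
    TopologicalSpace.IsTopologicalBasis {s : Set (X θ) | IsClopen s} := by
  apply TopologicalSpace.isTopologicalBasis_of_isOpen_of_nhds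
  · intro s hs
    exact hs.2
  · intro a U ha hU
    obtain ⟨N, h1, h2, h3⟩ := exists_clopen hU ha
    exact ⟨N, h1, h2, h3⟩

end Pool.Agent.D76130
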