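import Pool.Agent.D76130.NonNormal

/-!
# The typing of branches

The typing of Baire space from `CP.lean` restricted to branches; both types `I false`, `I true`
occur uncountably often below every node.
-/

namespace Pool.Agent.D76130

open Set Cardinal

/-- The property of typings obtained in `CP.lean`. -/
def IsTyping (θ' : (ℕ → ℕ) → Ty) : Prop :=
  ∀ T : Set Cd, ¬ T.Countable → ∀ τ : ℕ → Ty,
    ∃ p : Cd, (∀ m, ∃ c ∈ T, agr m c p) ∧
      ∀ j, (∃ c ∈ T, ∃ c' ∈ T, c ≠ c' ∧ c j = p j ∧ c' j = p j) ∨
        ∃ i ≤ j, p i = p j ∧ (∀ i' < i, p i' ≠ p j) ∧ θ' (p j) = τ i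

theorem exists_isTyping : ∃ θ', IsTyping θ' := exists_typing

/-- Branches as elements of Baire space. -/
def enc (v : Br) : ℕ → ℕ := fun n => (v n).toNat

/-- Decoding branches. -/
def dec (a : ℕ → ℕ) : Br := fun n => a n == 1

@[simp] theorem dec_enc (v : Br) : dec (enc v) = v := by
  funext n
  unfold dec enc
  cases v n <;> rfl

theorem enc_injective : Function.Injective enc := fun v v' h => by
  rw [← dec_enc v, ← dec_enc v', h]

theorem enc_dec {a : ℕ → ℕ} (h : ∀ n, ∃ v : Br, a n = enc v n) : enc (dec a) = a := by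
  funext n
  obtain ⟨v, hv⟩ := h n
  show (a n == 1).toNat = a n
  rw [hv]
  show ((v n).toNat == 1).toNat = (v n).toNat
  cases v n <;> rfl

theorem enc_apply_inj {v w : Br} {n : ℕ} (h : enc v n = enc w n) : v n = w n := by
  have h' : (v n).toNat = (w n).toNat := h
  cases hv : v n <;> cases hw : w n <;> rw [hv, hw] at h' <;> first | rfl | cases h'

theorem uncountable_pre (t : List Bool) : ¬ {v : Br | Pre t v}.Countable := by
  intro hc
  let f : Br → Br := fun v n => if h : n < t.length then t[n] else v (n - t.length)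
  have hf : Function.Injective f := by
    intro v v' h
    funext n
    have := congrFun h (n + t.length)
    simpa [f] using this
  have hmem : ∀ v, f v ∈ {v : Br | Pre t v} := by
    intro v
    show pf (f v) t.length = t
    apply List.ext_getElem
    · simp
    · intro n h1 h2
      simp [pf, f, h2]
  have h1 : (range f).Countable := hc.mono (by rintro _ ⟨v, rfl⟩; exact hmem v)
  have h2 : (Set.univ : Set Br).Countable := by
    rw [← Set.image_univ] at h1
    exact Set.countable_of_injective_of_countable_image (hf.injOn) h1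
  have h3 : #(Set.univ : Set Br) ≤ ℵ₀ := le_aleph0_iff_set_countable.2 h2
  rw [mk_univ] at h3
  have h4 : #Br = 𝔠 := by simp
  rw [h4] at h3
  exact absurd h3 (not_le.2 aleph0_lt_continuum)

theorem uncountable_I {θ' : (ℕ → ℕ) → Ty} (hθ : IsTyping θ') (b : Bool) (t : List Bool) :
    ¬ {v : Br | Pre t v ∧ θ' (enc v) = Ty.I b}.Countable := by
  classical
  intro hc
  obtain ⟨a, ha⟩ := Set.countable_iff_exists_subset_range.1 hc
  let code : Br → Cd := fun v j => match j with
    | 0 => enc v
    | 1 => fun i => if h : ∃ k, v k ≠ a i k then Nat.find h else 0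
    | _ => fun _ => 0
  have hinj : Function.Injective code := fun v v' h => enc_injective (congrFun h 0)
  have hT : ¬ (code '' ({v : Br | Pre t v} \ range a)).Countable := by
    intro h
    have h1 := Set.countable_of_injective_of_countable_image hinj.injOn h
    apply uncountable_pre t
    refine (h1.union (countable_range a)).mono ?_
    intro v hv
    by_cases hva : v ∈ range a
    · exact Or.inr hva
    · exact Or.inl ⟨hv, hva⟩
  obtain ⟨p, hp1, hp2⟩ := hθ _ hT (fun _ => Ty.I b)
  have henc : enc (dec (p 0)) = p 0 := by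
    apply enc_dec
    intro n
    obtain ⟨_, ⟨v, _, rfl⟩, hv⟩ := hp1 (n + 1)
    exact ⟨v, (hv 0 (by omega) n (by omega)).symm⟩
  set v := dec (p 0) with hv
  have hvI : θ' (enc v) = Ty.I b := by
    rw [henc]
    rcases hp2 0 with ⟨c, ⟨w, _, rfl⟩, c', ⟨w', _, rfl⟩, hne, h1, h2⟩ | ⟨i, _, _, _, h⟩
    · exact absurd (congrArg code (enc_injective (h1.trans h2.symm))) hne
    · exact h
  have hpre : Pre t v := by
    obtain ⟨_, ⟨w, ⟨hw, _⟩, rfl⟩, hwp⟩ := hp1 (t.length + 1)
    have : pf w t.length = pf v t.length := by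
      rw [pf_eq_iff]
      intro i hi
      have h1 := hwp 0 (by omega) i (by omega)
      rw [← henc] at h1
      exact enc_apply_inj h1
    show pf v t.length = t
    rw [← this]
    exact hw
  obtain ⟨i, hi⟩ := ha ⟨hpre, hvI⟩
  obtain ⟨_, ⟨w, ⟨_, hwa⟩, rfl⟩, hwp⟩ := hp1 (i + p 1 i + 2)
  have h1 : (if h : ∃ k, w k ≠ a i k then Nat.find h else 0) = p 1 i :=
    hwp 1 (by omega) i (by omega)
  have hex : ∃ k, w k ≠ a i k := by
    by_contra hcon
    push Not at hcon
    exact hwa ⟨i, (funext hcon).symm⟩
  rw [dif_pos hex] at h1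
  have h2 := Nat.find_spec hex
  rw [h1] at h2
  have h3 : enc w (p 1 i) = p 0 (p 1 i) := hwp 0 (by omega) (p 1 i) (by omega)
  rw [← henc] at h3
  apply h2
  rw [hi]
  exact enc_apply_inj h3

end Pool.Agent.D76130
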